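import Mathlib
import Pool.Agent.Q91.ExpSys

/-!
# Limit sets of families of maps which are similarities on the images of each other

`s i` multiplies the distances of points of `s j (K)` by `M i j`.
-/

open Set Filter Topology MeasureTheory
open scoped ENNReal NNReal

namespace Q91.MS

open Q91.ExpSys

/-- Markov families. -/
structure Markov {E Z : Type*} [MetricSpace Z] (s : E → Z → Z) (K : Set Z) (M : E → E → ℝ)
    (lo hi : E → ℝ) (κ : ℝ) : Prop where
  compact : IsCompact K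
  nonempty : K.Nonempty
  mapsTo : ∀ i, MapsTo (s i) K K
  ratio : ∀ i j, ∀ x ∈ K, ∀ y ∈ K,
    dist (s i (s j x)) (s i (s j y)) = M i j * dist (s j x) (s j y)
  M_pos : ∀ i j, 0 < M i j
  M_le : ∀ i j, M i j ≤ κ
  κ_pos : 0 < κ
  κ_lt : κ < 1
  dist_le : ∀ i, ∀ x ∈ K, ∀ y ∈ K, dist (s i x) (s i y) ≤ hi i * dist x y
  le_dist : ∀ i, ∀ x ∈ K, ∀ y ∈ K, lo i * dist x y ≤ dist (s i x) (s i y)
  lo_pos : ∀ i, 0 < lo i
  lo_lt : ∀ i, lo i < 1
  hi_nonneg : ∀ i, 0 ≤ hi i
  hi_le : ∀ i, hi i ≤ κ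
  disj : ∀ i j, i ≠ j → Disjoint (s i '' K) (s j '' K)

/-- Weights of words. -/
def wt {E R : Type*} [Mul R] (W : E → E → R) (g : E → R) : (n : ℕ) → E → (Fin n → E) → R
  | 0, i, _ => g i
  | (n + 1), i, w => W i (w 0) * wt W g n (w 0) (Fin.tail w)

section Upper

variable {E Z : Type*} [MetricSpace Z] {s : E → Z → Z} {K : Set Z} {M : E → E → ℝ}
  {lo hi : E → ℝ} {κ : ℝ}

lemma cmp_mapsTo' (h : Markov s K M lo hi κ) (ω : ℕ → E) (n : ℕ) : MapsTo (cmp s ω n) K K := by
  induction n with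
  | zero => exact fun x hx => hx
  | succ n ih => exact fun x hx => ih (h.mapsTo _ hx)

lemma dist_cmp_le_wt (h : Markov s K M lo hi κ) (n : ℕ) : ∀ (ω : ℕ → E), ∀ x ∈ K, ∀ y ∈ K,
    dist (cmp s ω (n + 1) x) (cmp s ω (n + 1) y) ≤
      wt M hi n (ω 0) (fun k => ω (k + 1)) * dist x y := by
  induction n with
  | zero => intro ω x hx y hy; exact h.dist_le _ x hx y hy
  | succ n ih =>
    intro ω x hx y hy
    rw [cmp_succ', cmp_succ' ω (n + 1) y, cmp_succ', cmp_succ' _ n y]
    have hx' := cmp_mapsTo' h (fun k => ω (k + 1 + 1)) n hx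
    have hy' := cmp_mapsTo' h (fun k => ω (k + 1 + 1)) n hy
    rw [h.ratio _ _ _ hx' _ hy', wt, mul_assoc]
    refine mul_le_mul_of_nonneg_left ?_ (h.M_pos _ _).le
    have := ih (fun k => ω (k + 1)) x hx y hy
    rw [cmp_succ', cmp_succ' _ n y] at this
    exact this

lemma wt_nonneg {W : E → E → ℝ} {g : E → ℝ} (hW : ∀ i j, 0 ≤ W i j) (hg : ∀ i, 0 ≤ g i) (n : ℕ) :
    ∀ i (w : Fin n → E), 0 ≤ wt W g n i w := by
  induction n with
  | zero => exact fun i _ => hg i
  | succ n ih => exact fun i w => mul_nonneg (hW _ _) (ih _ _)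

lemma wt_le {W : E → E → ℝ} {g : E → ℝ} {κ : ℝ} (hW : ∀ i j, 0 ≤ W i j) (hWκ : ∀ i j, W i j ≤ κ)
    (hg : ∀ i, 0 ≤ g i) (hgκ : ∀ i, g i ≤ κ) (hκ : 0 ≤ κ) (n : ℕ) :
    ∀ i (w : Fin n → E), wt W g n i w ≤ κ ^ (n + 1) := by
  induction n with
  | zero => intro i _; rw [wt]; simpa using hgκ i
  | succ n ih =>
    intro i w
    rw [wt, pow_succ']
    exact mul_le_mul (hWκ _ _) (ih _ _) (wt_nonneg hW hg n _ _) hκ

lemma ofReal_wt_rpow {W : E → E → ℝ} {g : E → ℝ} (hW : ∀ i j, 0 ≤ W i j) (hg : ∀ i, 0 ≤ g i)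
    {t : ℝ} (n : ℕ) : ∀ i (w : Fin n → E), ENNReal.ofReal ((wt W g n i w) ^ t) =
      wt (fun i j => ENNReal.ofReal (W i j ^ t)) (fun i => ENNReal.ofReal (g i ^ t)) n i w := by
  induction n with
  | zero => intro i _; rfl
  | succ n ih =>
    intro i w
    rw [wt, wt, Real.mul_rpow (hW _ _) (wt_nonneg hW hg n _ _),
      ENNReal.ofReal_mul (Real.rpow_nonneg (hW _ _) _), ih]

lemma wt_le_wt {W : E → E → ℝ≥0∞} {g g' : E → ℝ≥0∞} {C : ℝ≥0∞} {F : Set E}
    (hg : ∀ i ∈ F, g i ≤ C * g' i) (n : ℕ) :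
    ∀ i ∈ F, ∀ (w : Fin n → E), (∀ k, w k ∈ F) → wt W g n i w ≤ C * wt W g' n i w := by
  induction n with
  | zero => exact fun i hi _ _ => hg i hi
  | succ n ih =>
    intro i _ w hw
    rw [wt, wt, mul_left_comm]
    exact mul_le_mul_right (ih _ (hw 0) _ fun k => hw _) _

/-- The sum over the words. -/
lemma tsum_wt_le {W : E → E → ℝ≥0∞} {g : E → ℝ≥0∞} {F : Set E}
    (hg : ∀ i ∈ F, ∑' j : F, W i j * g j ≤ g i) (n : ℕ) :
    ∀ i ∈ F, ∑' w : Fin n → F, wt W g n i (fun k => (w k : E)) ≤ g i := by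
  induction n with
  | zero => intro i _; simp [wt]
  | succ n ih =>
    intro i hi
    rw [← (Fin.consEquiv fun _ => F).tsum_eq, ENNReal.tsum_prod']
    refine le_trans ?_ (hg i hi)
    refine ENNReal.tsum_le_tsum fun j => ?_
    have h1 : ∀ w : Fin n → F, wt W g (n + 1) i
        (fun k => (((Fin.consEquiv fun _ => F) (j, w)) k : E)) =
        W i j * wt W g n j (fun k => (w k : E)) := by
      intro w
      rw [wt]
      simp only [Fin.consEquiv, Equiv.coe_fn_mk, Fin.cons_zero]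
      congr 1
    simp only [h1]
    rw [ENNReal.tsum_mul_left]
    exact mul_le_mul_right (ih j j.2) _

/-- **Upper bound.** -/
theorem dimH_le [Countable E] (h : Markov s K M lo hi κ) {F : Set E} {t : ℝ} (ht : 0 < t)
    (g : E → ℝ≥0∞) (hg : ∀ i ∈ F, ∑' j : F, ENNReal.ofReal (M i j ^ t) * g j ≤ g i)
    (hgs : ∑' j : F, g j ≠ ⊤) {C : ℝ≥0∞} (hC : C ≠ ⊤)
    (hgh : ∀ j ∈ F, ENNReal.ofReal (hi j ^ t) ≤ C * g j) :
    dimH (limitSet s K F) ≤ ENNReal.ofReal t := by
  obtain ⟨D, hD0, hD⟩ : ∃ D : ℝ, 0 ≤ D ∧ ∀ x ∈ K, ∀ y ∈ K, dist x y ≤ D := by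
    obtain ⟨D, hD⟩ := Metric.isBounded_iff.1 h.compact.isBounded
    exact ⟨max D 0, le_max_right _ _, fun x hx y hy => (hD hx hy).trans (le_max_left _ _)⟩
  borelize Z
  have hκ0 := h.κ_pos.le
  have key : μH[t] (limitSet s K F) ≤ (∑' j : F, g j) * (C * ENNReal.ofReal (D ^ t)) := by
    have hlim : Tendsto (fun n : ℕ => ENNReal.ofReal (κ ^ (n + 1) * D)) atTop (𝓝 0) := by
      have h2 := ENNReal.tendsto_ofReal
        (((tendsto_pow_atTop_nhds_zero_of_lt_one hκ0 h.κ_lt).comp (tendsto_add_atTop_nat 1)).mul_const D)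
      rwa [zero_mul, ENNReal.ofReal_zero] at h2
    have hdiam : ∀ n (w : F × (Fin n → F)), Metric.ediam {x | ∃ ω : ℕ → E, ω 0 = w.1 ∧
        (∀ i : Fin n, ω (i + 1) = w.2 i) ∧ ∀ m, x ∈ cmp s ω m '' K} ≤
        ENNReal.ofReal (wt M hi n w.1 (fun k => (w.2 k : E)) * D) := by
      intro n w
      apply Metric.ediam_le
      rintro x ⟨ω, h0, h1, h2⟩ y ⟨ω', h0', h1', h2'⟩
      have hT : ∀ i < n + 1, ω i = ω' i := by
        intro i hi
        rcases Nat.eq_zero_or_pos i with rfl | hi0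
        · rw [h0, h0']
        · obtain ⟨k, rfl⟩ := Nat.exists_eq_succ_of_ne_zero hi0.ne'
          have := h1 ⟨k, by omega⟩
          have h3 := h1' ⟨k, by omega⟩
          simp only at this h3
          rw [Nat.succ_eq_add_one, this, h3]
      have e : (fun k : Fin n => (w.2 k : E)) = fun k : Fin n => ω (k + 1) :=
        funext fun k => (h1 k).symm
      obtain ⟨x', hx', hx⟩ := h2 (n + 1)
      obtain ⟨y', hy', hy⟩ := h2' (n + 1)
      rw [← cmp_congr hT] at hy
      rw [edist_dist, e, ← h0, ← hx, ← hy]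
      apply ENNReal.ofReal_le_ofReal
      exact (dist_cmp_le_wt h n ω x' hx' y' hy').trans
        (mul_le_mul_of_nonneg_left (hD _ hx' _ hy')
          (wt_nonneg (fun i j => (h.M_pos i j).le) h.hi_nonneg n _ _))
    have hH := Measure.hausdorffMeasure_le_liminf_tsum (X := Z) (ι := fun n : ℕ => F × (Fin n → F))
      t (limitSet s K F) (l := atTop) (fun n => ENNReal.ofReal (κ ^ (n + 1) * D)) hlim
      (fun n w => {x | ∃ ω : ℕ → E, ω 0 = w.1 ∧
        (∀ i : Fin n, ω (i + 1) = w.2 i) ∧ ∀ m, x ∈ cmp s ω m '' K})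
      (Eventually.of_forall fun n w => (hdiam n w).trans (ENNReal.ofReal_le_ofReal
        (mul_le_mul_of_nonneg_right (wt_le (fun i j => (h.M_pos i j).le) h.M_le h.hi_nonneg
          h.hi_le hκ0 n _ _) hD0)))
      (Eventually.of_forall fun n => by
        rintro x ⟨ω, h1, h2⟩
        exact mem_iUnion.2 ⟨(⟨ω 0, h1 0⟩, fun i => ⟨ω (i + 1), h1 _⟩), ω, rfl, fun i => rfl, h2⟩)
    refine hH.trans ?_
    have hb : ∀ n : ℕ, ∑' w : F × (Fin n → F), Metric.ediam {x | ∃ ω : ℕ → E, ω 0 = w.1 ∧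
        (∀ i : Fin n, ω (i + 1) = w.2 i) ∧ ∀ m, x ∈ cmp s ω m '' K} ^ t ≤
        (∑' j : F, g j) * (C * ENNReal.ofReal (D ^ t)) := by
      intro n
      calc ∑' w : F × (Fin n → F), Metric.ediam {x | ∃ ω : ℕ → E, ω 0 = w.1 ∧
            (∀ i : Fin n, ω (i + 1) = w.2 i) ∧ ∀ m, x ∈ cmp s ω m '' K} ^ t
          ≤ ∑' w : F × (Fin n → F), (C * wt (fun i j => ENNReal.ofReal (M i j ^ t)) g n w.1
              (fun k => (w.2 k : E))) * ENNReal.ofReal (D ^ t) := by
            apply ENNReal.tsum_le_tsum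
            intro w
            refine (ENNReal.rpow_le_rpow (hdiam n w) ht.le).trans ?_
            have hp := wt_nonneg (fun i j => (h.M_pos i j).le) h.hi_nonneg n (w.1 : E)
              (fun k => (w.2 k : E))
            rw [ENNReal.ofReal_rpow_of_nonneg (mul_nonneg hp hD0) ht.le,
              Real.mul_rpow hp hD0, ENNReal.ofReal_mul (Real.rpow_nonneg hp t),
              ofReal_wt_rpow (fun i j => (h.M_pos i j).le) h.hi_nonneg]
            exact mul_le_mul_left (wt_le_wt hgh n _ w.1.2 _ fun k => (w.2 k).2) _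
        _ = (∑' w : F × (Fin n → F), wt (fun i j => ENNReal.ofReal (M i j ^ t)) g n w.1
              (fun k => (w.2 k : E))) * (C * ENNReal.ofReal (D ^ t)) := by
            rw [ENNReal.tsum_mul_right, ENNReal.tsum_mul_left]
            ring
        _ ≤ (∑' j : F, g j) * (C * ENNReal.ofReal (D ^ t)) := by
            apply mul_le_mul_left
            rw [ENNReal.tsum_prod']
            exact ENNReal.tsum_le_tsum fun i => tsum_wt_le (W := fun i j => ENNReal.ofReal (M i j ^ t))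
              (g := g) (F := F) hg n (i : E) i.2
    calc liminf (fun n : ℕ => ∑' w : F × (Fin n → F), Metric.ediam {x | ∃ ω : ℕ → E, ω 0 = w.1 ∧
            (∀ i : Fin n, ω (i + 1) = w.2 i) ∧ ∀ m, x ∈ cmp s ω m '' K} ^ t) atTop
        ≤ liminf (fun _ : ℕ => (∑' j : F, g j) * (C * ENNReal.ofReal (D ^ t))) atTop :=
          liminf_le_liminf (Eventually.of_forall hb)
      _ = _ := liminf_const _
  have hne : μH[((t.toNNReal : ℝ≥0) : ℝ)] (limitSet s K F) ≠ ⊤ := by
    rw [Real.coe_toNNReal t ht.le]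
    exact (lt_of_le_of_lt key (ENNReal.mul_lt_top hgs.lt_top
      (ENNReal.mul_lt_top hC.lt_top ENNReal.ofReal_lt_top))).ne
  exact dimH_le_of_hausdorffMeasure_ne_top hne

end Upper

section Lower

variable {E Z : Type*} [MetricSpace Z] {s : E → Z → Z} {K : Set Z} {M : E → E → ℝ}
  {lo hi : E → ℝ} {κ : ℝ}

/-- Composition along a list. -/
def comp {E Z : Type*} (s : E → Z → Z) (l : List E) (x : Z) : Z := l.foldr s x

/-- Lower ratio along a list. -/
def pr {E : Type*} (M : E → E → ℝ) (lo : E → ℝ) : List E → ℝ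
  | [] => 1
  | [i] => lo i
  | i :: j :: l => M i j * pr M lo (j :: l)

lemma comp_mem (h : Markov s K M lo hi κ) (l : List E) {x : Z} (hx : x ∈ K) : comp s l x ∈ K := by
  induction l with
  | nil => exact hx
  | cons i l ih => exact h.mapsTo i ih

lemma pr_pos (h : Markov s K M lo hi κ) (l : List E) : 0 < pr M lo l := by
  induction l with
  | nil => exact one_pos
  | cons i l ih =>
    cases l with
    | nil => exact h.lo_pos i
    | cons j l => exact mul_pos (h.M_pos i j) ih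

lemma pr_lt (h : Markov s K M lo hi κ) (i : E) (l : List E) : pr M lo (i :: l) < 1 := by
  induction l generalizing i with
  | nil => exact h.lo_lt i
  | cons j l ih =>
    have h1 := ih j
    have h2 := h.M_pos i j
    have h3 := (h.M_le i j).trans_lt h.κ_lt
    have h4 := pr_pos h (j :: l)
    change M i j * pr M lo (j :: l) < 1
    nlinarith

lemma pr_le_dist (h : Markov s K M lo hi κ) (l : List E) {x y : Z} (hx : x ∈ K) (hy : y ∈ K) :
    pr M lo l * dist x y ≤ dist (comp s l x) (comp s l y) := by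
  induction l with
  | nil => simp [pr, comp]
  | cons i l ih =>
    cases l with
    | nil => exact h.le_dist i x hx y hy
    | cons j l =>
      have h1 : dist (comp s (i :: j :: l) x) (comp s (i :: j :: l) y) =
          M i j * dist (comp s (j :: l) x) (comp s (j :: l) y) :=
        h.ratio i j _ (comp_mem h l hx) _ (comp_mem h l hy)
      rw [h1, pr, mul_assoc]
      exact mul_le_mul_of_nonneg_left ih (h.M_pos i j).le

lemma comp_continuousOn (h : Markov s K M lo hi κ) (l : List E) : ContinuousOn (comp s l) K := by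
  induction l with
  | nil => exact continuousOn_id
  | cons i l ih =>
    have h1 : ContinuousOn (s i) K := by
      have : LipschitzOnWith (hi i).toNNReal (s i) K :=
        LipschitzOnWith.of_dist_le_mul fun x hx y hy => by
          rw [Real.coe_toNNReal _ (h.hi_nonneg i)]
          exact h.dist_le i x hx y hy
      exact this.continuousOn
    exact h1.comp ih fun x hx => comp_mem h l hx

lemma comp_disj (h : Markov s K M lo hi κ) : ∀ (l l' : List E), l.length = l'.length → l ≠ l' →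
    Disjoint (comp s l '' K) (comp s l' '' K) := by
  intro l
  induction l with
  | nil =>
    intro l' h1 h2
    exact absurd (List.length_eq_zero_iff.1 h1.symm).symm h2
  | cons i l ih =>
    intro l' h1 h2
    cases l' with
    | nil => simp at h1
    | cons i' l' =>
      rw [Set.disjoint_left]
      rintro _ ⟨x, hx, rfl⟩ ⟨y, hy, hxy⟩
      by_cases hi : i = i'
      · subst hi
        have h3 : l ≠ l' := fun h => h2 (by rw [h])
        have h4 : l.length = l'.length := by simpa using h1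
        have h5 := h.le_dist i _ (comp_mem h l' hy) _ (comp_mem h l hx)
        have h6 : dist (s i (comp s l' y)) (s i (comp s l x)) = 0 := by
          rw [dist_eq_zero]; exact hxy
        rw [h6] at h5
        have h7 : dist (comp s l' y) (comp s l x) = 0 :=
          le_antisymm (by
            by_contra hc
            push Not at hc
            have := mul_pos (h.lo_pos i) hc
            linarith) dist_nonneg
        rw [dist_eq_zero] at h7
        exact Set.disjoint_left.1 (ih l' h4 h3) ⟨x, hx, rfl⟩ ⟨y, hy, h7⟩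
      · exact Set.disjoint_left.1 (h.disj i i' hi) ⟨comp s l x, comp_mem h l hx, rfl⟩
          ⟨comp s l' y, comp_mem h l' hy, hxy⟩

/-- The words of length `n` over `F`. -/
def Wd {E : Type*} [DecidableEq E] (F : Finset E) : ℕ → Finset (List E)
  | 0 => {[]}
  | (n + 1) => (F ×ˢ Wd F n).image fun p => p.1 :: p.2

lemma mem_Wd [DecidableEq E] {F : Finset E} {n : ℕ} : ∀ {l : List E}, l ∈ Wd F n ↔
    l.length = n ∧ ∀ e ∈ l, e ∈ F := by
  induction n with
  | zero =>
    intro l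
    rw [Wd, Finset.mem_singleton, List.length_eq_zero_iff]
    constructor
    · rintro rfl; simp
    · exact fun h => h.1
  | succ n ih =>
    intro l
    rw [Wd, Finset.mem_image]
    constructor
    · rintro ⟨p, hp, rfl⟩
      rw [Finset.mem_product] at hp
      obtain ⟨h1, h2⟩ := ih.1 hp.2
      refine ⟨by simp [h1], fun e he => ?_⟩
      rcases List.mem_cons.1 he with rfl | he
      · exact hp.1
      · exact h2 e he
    · rintro ⟨h1, h2⟩
      cases l with
      | nil => simp at h1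
      | cons i l =>
        refine ⟨(i, l), ?_, rfl⟩
        rw [Finset.mem_product]
        exact ⟨h2 i (by simp), ih.2 ⟨by simpa using h1, fun e he => h2 e (by simp [he])⟩⟩

lemma sum_Wd_succ [DecidableEq E] (F : Finset E) (n : ℕ) (f : List E → ℝ) :
    ∑ l ∈ Wd F (n + 1), f l = ∑ i ∈ F, ∑ l ∈ Wd F n, f (i :: l) := by
  rw [Wd, Finset.sum_image, Finset.sum_product]
  rintro ⟨i, l⟩ _ ⟨i', l'⟩ _ h
  simp only [List.cons.injEq] at h
  exact Prod.ext h.1 h.2

lemma le_sum_Wd [DecidableEq E] (h : Markov s K M lo hi κ) {F : Finset E} {t k m : ℝ} {g : E → ℝ}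
    (hm0 : 0 ≤ m) (hk0 : 0 ≤ k)
    (hm : ∀ i ∈ F, m * g i ≤ lo i ^ t) (hk : ∀ i ∈ F, k * g i ≤ ∑ j ∈ F, M i j ^ t * g j) (n : ℕ) :
    ∀ i ∈ F, k ^ n * g i * m ≤ ∑ l ∈ Wd F n, pr M lo (i :: l) ^ t := by
  induction n with
  | zero =>
    intro i hi
    rw [Wd, Finset.sum_singleton, pow_zero, one_mul, mul_comm]
    exact hm i hi
  | succ n ih =>
    intro i hi
    rw [sum_Wd_succ]
    calc k ^ (n + 1) * g i * m = k ^ n * m * (k * g i) := by ring
      _ ≤ k ^ n * m * ∑ j ∈ F, M i j ^ t * g j :=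
          mul_le_mul_of_nonneg_left (hk i hi) (by positivity)
      _ = ∑ j ∈ F, M i j ^ t * (k ^ n * g j * m) := by
          rw [Finset.mul_sum]
          exact Finset.sum_congr rfl fun j _ => by ring
      _ ≤ ∑ j ∈ F, M i j ^ t * ∑ l ∈ Wd F n, pr M lo (j :: l) ^ t :=
          Finset.sum_le_sum fun j hj => mul_le_mul_of_nonneg_left (ih j hj)
            (Real.rpow_nonneg (h.M_pos i j).le _)
      _ = _ := by
          refine Finset.sum_congr rfl fun j _ => ?_
          rw [Finset.mul_sum]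
          refine Finset.sum_congr rfl fun l _ => ?_
          rw [pr, Real.mul_rpow (h.M_pos i j).le (pr_pos h _).le]

lemma exists_lower {α : Type*} (S : Finset α) (r : α → ℝ) (hr : ∀ a ∈ S, 0 < r a) :
    ∃ δ > 0, ∀ a ∈ S, δ ≤ r a := by
  classical
  induction S using Finset.induction_on with
  | empty => exact ⟨1, one_pos, by simp⟩
  | insert a S _ ih =>
    obtain ⟨δ, h1, h2⟩ := ih fun b hb => hr b (Finset.mem_insert_of_mem hb)
    refine ⟨min δ (r a), lt_min h1 (hr a (Finset.mem_insert_self _ _)), fun b hb => ?_⟩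
    rcases Finset.mem_insert.1 hb with rfl | hb
    · exact min_le_right _ _
    · exact (min_le_left _ _).trans (h2 b hb)

/-- The lower bound for a finite set of letters with a strict inequality. -/
theorem le_dimH_finite (h : Markov s K M lo hi κ) {F : Finset E} (hFne : F.Nonempty)
    {t k : ℝ} (ht : 0 < t) (hk1 : 1 < k) {g : E → ℝ} (hg0 : ∀ i ∈ F, 0 < g i)
    (hk : ∀ i ∈ F, k * g i ≤ ∑ j ∈ F, M i j ^ t * g j) :
    ENNReal.ofReal t ≤ dimH (limitSet s K (F : Set E)) := by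
  classical
  obtain ⟨m, hm0, hm⟩ := exists_lower F (fun i => lo i ^ t / g i)
    fun i hi => div_pos (Real.rpow_pos_of_pos (h.lo_pos i) t) (hg0 i hi)
  have hm' : ∀ i ∈ F, m * g i ≤ lo i ^ t := fun i hi => by
    have := hm i hi
    rwa [le_div_iff₀ (hg0 i hi)] at this
  obtain ⟨i₀, hi₀⟩ := hFne
  obtain ⟨n, hn⟩ : ∃ n : ℕ, 1 ≤ k ^ n * (g i₀ * m) := by
    have hpos : 0 < g i₀ * m := mul_pos (hg0 i₀ hi₀) hm0
    obtain ⟨n, hn⟩ := pow_unbounded_of_one_lt (1 / (g i₀ * m)) hk1
    refine ⟨n, ?_⟩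
    rw [div_lt_iff₀ hpos] at hn
    exact hn.le
  have hsum : 1 ≤ ∑ l ∈ Wd F (n + 1), pr M lo l ^ t := by
    rw [sum_Wd_succ]
    refine le_trans ?_ (Finset.single_le_sum (f := fun i => ∑ l ∈ Wd F n, pr M lo (i :: l) ^ t)
      (fun i _ => Finset.sum_nonneg fun l _ => Real.rpow_nonneg (pr_pos h _).le _) hi₀)
    refine le_trans ?_ (le_sum_Wd h hm0.le (by linarith) hm' hk n i₀ hi₀)
    rw [mul_assoc]
    exact hn
  -- separation of the words
  have hδ : ∃ δ : ℝ, 0 < δ ∧ ∀ l ∈ Wd F (n + 1), ∀ l' ∈ Wd F (n + 1), l ≠ l' →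
      ∀ x ∈ K, ∀ y ∈ K, δ ≤ dist (comp s l x) (comp s l' y) := by
    have h1 : ∀ p : List E × List E, ∃ r : ℝ, 0 < r ∧ (p ∈ (Wd F (n + 1) ×ˢ Wd F (n + 1)) →
        p.1 ≠ p.2 → ∀ x ∈ K, ∀ y ∈ K, r ≤ dist (comp s p.1 x) (comp s p.2 y)) := by
      intro p
      by_cases hp : p ∈ (Wd F (n + 1) ×ˢ Wd F (n + 1)) ∧ p.1 ≠ p.2
      · have hp1 := Finset.mem_product.1 hp.1
        have hl : p.1.length = p.2.length := by
          rw [(mem_Wd.1 hp1.1).1, (mem_Wd.1 hp1.2).1]
        obtain ⟨r, hr0, hr⟩ := Metric.exists_pos_forall_lt_edist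
          (h.compact.image_of_continuousOn (comp_continuousOn h p.1))
          (h.compact.image_of_continuousOn (comp_continuousOn h p.2)).isClosed
          (comp_disj h p.1 p.2 hl hp.2)
        refine ⟨r, NNReal.coe_pos.2 hr0, fun _ _ x hx y hy => ?_⟩
        have h2 := hr _ ⟨x, hx, rfl⟩ _ ⟨y, hy, rfl⟩
        rw [edist_nndist, ENNReal.coe_lt_coe] at h2
        have h3 : (r : ℝ) < (nndist (comp s p.1 x) (comp s p.2 y) : ℝ) := NNReal.coe_lt_coe.2 h2
        rw [coe_nndist] at h3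
        exact h3.le
      · exact ⟨1, one_pos, fun h2 h3 => absurd ⟨h2, h3⟩ hp⟩
    choose r hr0 hr using h1
    obtain ⟨δ, h2, h3⟩ := exists_lower (Wd F (n + 1) ×ˢ Wd F (n + 1)) r fun p _ => hr0 p
    refine ⟨δ, h2, fun l hl l' hl' hne x hx y hy => ?_⟩
    have hp : (l, l') ∈ (Wd F (n + 1) ×ˢ Wd F (n + 1)) := Finset.mem_product.2 ⟨hl, hl'⟩
    exact (h3 _ hp).trans (hr (l, l') hp hne x hx y hy)
  obtain ⟨δ, hδ0, hδ⟩ := hδ
  have hlt : ∀ l ∈ Wd F (n + 1), pr M lo l < 1 := by
    intro l hl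
    cases l with
    | nil => exact absurd (mem_Wd.1 hl).1 (by simp)
    | cons i l => exact pr_lt h i l
  have hmain := ofReal_le_dimH_limitSet (s := fun l => comp s l) (A := Wd F (n + 1)) h.compact
    h.nonempty (fun l _ x hx => comp_mem h l hx) (fun l _ => comp_continuousOn h l)
    (r := pr M lo) (fun l _ => pr_pos h l) hlt
    (fun l _ x hx y hy => pr_le_dist h l hx hy) hδ0 hδ ht hsum
  refine hmain.trans (dimH_mono ?_)
  -- the limit set of the words is contained in the limit set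
  set L := limitSet (fun l => comp s l) K ((Wd F (n + 1) : Finset (List E)) : Set (List E)) with hL
  have hLK : L ⊆ K := limitSet_subset
  have hsub : {z | ∃ l : List E, (∀ e ∈ l, e ∈ F) ∧ ∃ x ∈ L, z = comp s l x} ⊆
      limitSet s K (F : Set E) := by
    apply subset_limitSet
    · rintro _ ⟨l, -, x, hx, rfl⟩
      exact comp_mem h l (hLK hx)
    · rintro _ ⟨l, hl, x, hx, rfl⟩
      cases l with
      | cons i l =>
        exact ⟨i, hl i (by simp), comp s l x, ⟨l, fun e he => hl e (by simp [he]), x, hx, rfl⟩, rfl⟩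
      | nil =>
        obtain ⟨w, hw, x', hx', hxx'⟩ := exists_preimage (s := fun l => comp s l)
          (A := Wd F (n + 1)) (r := pr M lo) (fun l _ => pr_pos h l)
          (fun l _ x hx => comp_mem h l hx) (fun l _ x hx y hy => pr_le_dist h l hx hy) hx
        obtain ⟨h1, h2⟩ := mem_Wd.1 hw
        cases w with
        | nil => simp at h1
        | cons i w =>
          exact ⟨i, h2 i (by simp), comp s w x', ⟨w, fun e he => h2 e (by simp [he]), x', hx', rfl⟩,
            hxx'⟩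
  exact fun x hx => hsub ⟨[], by simp, x, hx, rfl⟩

/-- **Lower bound.** -/
theorem le_dimH (h : Markov s K M lo hi κ) {A : Set E} {t : ℝ} (ht : 0 < t) {g : E → ℝ}
    (hg0 : ∀ i ∈ A, 0 < g i)
    (hF : ∀ η : ℝ, 0 < η → η < 1 → ∃ F : Finset E, F.Nonempty ∧ (F : Set E) ⊆ A ∧
      ∀ i ∈ F, η * g i ≤ ∑ j ∈ F, M i j ^ t * g j) :
    ENNReal.ofReal t ≤ dimH (limitSet s K A) := by
  have key : ∀ t' : ℝ, 0 < t' → t' < t → ENNReal.ofReal t' ≤ dimH (limitSet s K A) := by
    intro t' ht' htt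
    have hκ0 := h.κ_pos
    have hκ1 := h.κ_lt
    obtain ⟨F, hFne, hFA, hF⟩ := hF (κ ^ ((t - t') / 2)) (Real.rpow_pos_of_pos hκ0 _)
      (Real.rpow_lt_one hκ0.le hκ1 (by linarith))
    have hk1 : 1 < κ ^ (-((t - t') / 2)) := by
      rw [Real.rpow_neg hκ0.le]
      exact (one_lt_inv₀ (Real.rpow_pos_of_pos hκ0 _)).2
        (Real.rpow_lt_one hκ0.le hκ1 (by linarith))
    refine (le_dimH_finite h hFne ht' hk1 (g := g) (fun i hi => hg0 i (hFA hi)) ?_).trans
      (dimH_mono (limitSet_mono hFA))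
    intro i hi
    have h1 : ∀ j ∈ F, κ ^ (-(t - t')) * (M i j ^ t * g j) ≤ M i j ^ t' * g j := by
      intro j hj
      rw [← mul_assoc]
      refine mul_le_mul_of_nonneg_right ?_ (hg0 j (hFA hj)).le
      have h2 : M i j ^ t' = M i j ^ (-(t - t')) * M i j ^ t := by
        rw [← Real.rpow_add (h.M_pos i j)]
        congr 1
        ring
      rw [h2]
      refine mul_le_mul_of_nonneg_right ?_ (Real.rpow_nonneg (h.M_pos i j).le _)
      exact Real.rpow_le_rpow_of_nonpos (h.M_pos i j) (h.M_le i j) (by linarith)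
    calc κ ^ (-((t - t') / 2)) * g i
        = κ ^ (-(t - t')) * (κ ^ ((t - t') / 2) * g i) := by
          rw [← mul_assoc, ← Real.rpow_add hκ0]
          congr 2
          ring
      _ ≤ κ ^ (-(t - t')) * ∑ j ∈ F, M i j ^ t * g j :=
          mul_le_mul_of_nonneg_left (hF i hi) (Real.rpow_nonneg hκ0.le _)
      _ = ∑ j ∈ F, κ ^ (-(t - t')) * (M i j ^ t * g j) := Finset.mul_sum _ _ _
      _ ≤ _ := Finset.sum_le_sum h1
  by_contra hc
  push Not at hc
  have hne : dimH (limitSet s K A) ≠ ⊤ := (hc.trans_le le_top).ne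
  have h1 : (dimH (limitSet s K A)).toReal < t := by
    have := (ENNReal.toReal_lt_toReal hne ENNReal.ofReal_ne_top).2 hc
    rwa [ENNReal.toReal_ofReal ht.le] at this
  obtain ⟨t', h2, h3⟩ := exists_between (max_lt h1 ht)
  have h4 := key t' ((le_max_right _ _).trans_lt h2) h3
  have h5 := (ENNReal.ofReal_le_iff_le_toReal hne).1 h4
  exact absurd ((le_max_left _ _).trans_lt h2) (not_lt.2 h5)

end Lower

end Q91.MS
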