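import Mathlib
import Pool.Agent.Q91.MS.Mark

/-!
# The maps of the mirror symmetric system
-/

open Set Filter Topology MeasureTheory
open scoped ENNReal NNReal ContDiff

namespace Q91.MS

/-- The parameters of the system. -/
structure Par where
  P : ℝ
  Q : ℝ
  W : ℝ
  ρ : ℕ → ℝ
  P0 : 0 < P
  P1 : P ≤ 1 / 100
  Q0 : 0 < Q
  Q1 : Q ≤ 1 / 100
  W0 : 0 < W
  W1 : W ≤ 1 / 100
  ρ0 : ∀ t, 0 < ρ t
  ρ1 : ∀ t, ρ t ≤ (1 / 2) ^ t / 200

namespace Par

variable (A : Par)

/-- The density. -/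
noncomputable def φ (x : ℝ) : ℝ :=
  A.P + (A.W - A.P) * Real.smoothTransition (5 * x - 1) +
    (A.Q - A.W) * Real.smoothTransition (5 * x - 3)

/-- The first map. -/
noncomputable def v (x : ℝ) : ℝ := 1 / 10 + ∫ y in (0 : ℝ)..x, A.φ y

/-- The maps. -/
noncomputable def u : Bool ⊕ ℕ → ℝ → ℝ
  | .inl false, x => A.v x
  | .inl true, x => 1 - A.v (1 - x)
  | .inr t, x => 2 / 5 + (1 / 2) ^ t / 10 + A.ρ t * x

/-- The derivatives. -/
noncomputable def D : Bool ⊕ ℕ → ℝ → ℝ
  | .inl false, x => A.φ x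
  | .inl true, x => A.φ (1 - x)
  | .inr t, _ => A.ρ t

/-- The blocks. -/
def J : Bool ⊕ ℕ → Set ℝ
  | .inl false => Iic (1 / 5)
  | .inl true => Ici (4 / 5)
  | .inr _ => Icc (2 / 5) (3 / 5)

/-- The slopes. -/
def M : Bool ⊕ ℕ → Bool ⊕ ℕ → ℝ
  | .inl b, .inl b' => if b = b' then A.P else A.Q
  | .inl _, .inr _ => A.W
  | .inr t, _ => A.ρ t

/-- The least slopes. -/
def lo : Bool ⊕ ℕ → ℝ
  | .inl _ => min A.P (min A.Q A.W)
  | .inr t => A.ρ t

/-- The largest slopes. -/
noncomputable def hi : Bool ⊕ ℕ → ℝ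
  | .inl _ => 1 / 100
  | .inr t => A.ρ t

lemma ρ_le (t : ℕ) : A.ρ t ≤ 1 / 200 := by
  refine (A.ρ1 t).trans ?_
  have : (1 / 2 : ℝ) ^ t ≤ 1 := pow_le_one₀ (by norm_num) (by norm_num)
  linarith

lemma φ_left {x : ℝ} (hx : x ≤ 1 / 5) : A.φ x = A.P := by
  rw [φ, Real.smoothTransition.zero_of_nonpos (by linarith),
    Real.smoothTransition.zero_of_nonpos (by linarith)]
  ring

lemma φ_mid {x : ℝ} (hx : 2 / 5 ≤ x) (hx' : x ≤ 3 / 5) : A.φ x = A.W := by
  rw [φ, Real.smoothTransition.one_of_one_le (by linarith),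
    Real.smoothTransition.zero_of_nonpos (by linarith)]
  ring

lemma φ_right {x : ℝ} (hx : 4 / 5 ≤ x) : A.φ x = A.Q := by
  rw [φ, Real.smoothTransition.one_of_one_le (by linarith),
    Real.smoothTransition.one_of_one_le (by linarith)]
  ring

lemma φ_form (x : ℝ) : ∃ a b, 0 ≤ a ∧ 0 ≤ b ∧ a + b = 1 ∧
    (A.φ x = A.P * a + A.W * b ∨ A.φ x = A.W * a + A.Q * b) := by
  rcases le_total x (3 / 5) with hx | hx
  · refine ⟨1 - Real.smoothTransition (5 * x - 1), Real.smoothTransition (5 * x - 1),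
      sub_nonneg.2 (Real.smoothTransition.le_one _), Real.smoothTransition.nonneg _, by ring,
      Or.inl ?_⟩
    rw [φ, Real.smoothTransition.zero_of_nonpos (x := 5 * x - 3) (by linarith)]
    ring
  · refine ⟨1 - Real.smoothTransition (5 * x - 3), Real.smoothTransition (5 * x - 3),
      sub_nonneg.2 (Real.smoothTransition.le_one _), Real.smoothTransition.nonneg _, by ring,
      Or.inr ?_⟩
    rw [φ, Real.smoothTransition.one_of_one_le (x := 5 * x - 1) (by linarith)]
    ring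

/-- The least big slope. -/
def m : ℝ := min A.P (min A.Q A.W)

lemma m_le_P : A.m ≤ A.P := min_le_left _ _
lemma m_le_Q : A.m ≤ A.Q := (min_le_right _ _).trans (min_le_left _ _)
lemma m_le_W : A.m ≤ A.W := (min_le_right _ _).trans (min_le_right _ _)
lemma m_pos : 0 < A.m := lt_min A.P0 (lt_min A.Q0 A.W0)

lemma m_le_φ (x : ℝ) : A.m ≤ A.φ x := by
  obtain ⟨a, b, ha, hb, hab, h⟩ := A.φ_form x
  have h1 := A.m_le_P
  have h2 := A.m_le_Q
  have h3 := A.m_le_W
  have e : A.m = A.m * a + A.m * b := by rw [← mul_add, hab, mul_one]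
  rcases h with h | h
  · rw [h, e]
    exact add_le_add (mul_le_mul_of_nonneg_right h1 ha) (mul_le_mul_of_nonneg_right h3 hb)
  · rw [h, e]
    exact add_le_add (mul_le_mul_of_nonneg_right h3 ha) (mul_le_mul_of_nonneg_right h2 hb)

lemma φ_le (x : ℝ) : A.φ x ≤ 1 / 100 := by
  obtain ⟨a, b, ha, hb, hab, h⟩ := A.φ_form x
  have h1 := A.P1
  have h2 := A.Q1
  have h3 := A.W1
  have e : (1 / 100 : ℝ) = 1 / 100 * a + 1 / 100 * b := by rw [← mul_add, hab, mul_one]
  rcases h with h | h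
  · rw [h, e]
    exact add_le_add (mul_le_mul_of_nonneg_right h1 ha) (mul_le_mul_of_nonneg_right h3 hb)
  · rw [h, e]
    exact add_le_add (mul_le_mul_of_nonneg_right h3 ha) (mul_le_mul_of_nonneg_right h2 hb)

lemma contDiff_φ : ContDiff ℝ ∞ A.φ := by
  unfold φ
  have h1 : ContDiff ℝ ∞ fun x : ℝ => Real.smoothTransition (5 * x - 1) :=
    (Real.smoothTransition.contDiff (n := ⊤)).comp (by fun_prop)
  have h2 : ContDiff ℝ ∞ fun x : ℝ => Real.smoothTransition (5 * x - 3) :=
    (Real.smoothTransition.contDiff (n := ⊤)).comp (by fun_prop)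
  exact (contDiff_const.add (contDiff_const.mul h1)).add (contDiff_const.mul h2)

lemma continuous_φ : Continuous A.φ := A.contDiff_φ.continuous

lemma hasDerivAt_v (x : ℝ) : HasDerivAt A.v (A.φ x) x := by
  have h := intervalIntegral.integral_hasDerivAt_right (f := A.φ) (a := 0) (b := x)
    (A.continuous_φ.intervalIntegrable _ _)
    (A.continuous_φ.stronglyMeasurableAtFilter _ _) A.continuous_φ.continuousAt
  exact h.const_add _

lemma contDiff_v : ContDiff ℝ ∞ A.v := by
  rw [contDiff_infty_iff_deriv]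
  refine ⟨fun x => (A.hasDerivAt_v x).differentiableAt, ?_⟩
  have : deriv A.v = A.φ := funext fun x => (A.hasDerivAt_v x).deriv
  rw [this]
  exact A.contDiff_φ

lemma hasDerivAt_u (i : Bool ⊕ ℕ) (x : ℝ) : HasDerivAt (A.u i) (A.D i x) x := by
  rcases i with (_ | _) | t
  · exact A.hasDerivAt_v x
  · have h1 : HasDerivAt (fun x : ℝ => 1 - x) (-1) x := by
      simpa using (hasDerivAt_id x).const_sub 1
    have h2 := ((A.hasDerivAt_v (1 - x)).comp x h1).const_sub 1
    change HasDerivAt (fun x => 1 - A.v (1 - x)) (A.φ (1 - x)) x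
    have e : -(A.φ (1 - x) * -1) = A.φ (1 - x) := by ring
    rw [e] at h2
    exact h2
  · have h1 := ((hasDerivAt_id x).const_mul (A.ρ t)).const_add (2 / 5 + (1 / 2) ^ t / 10)
    rw [mul_one] at h1
    exact h1

lemma contDiff_u (i : Bool ⊕ ℕ) : ContDiff ℝ ∞ (A.u i) := by
  rcases i with (_ | _) | t
  · exact A.contDiff_v
  · exact contDiff_const.sub (A.contDiff_v.comp (contDiff_const.sub contDiff_id))
  · exact contDiff_const.add (contDiff_const.mul contDiff_id)

lemma lo_pos (i : Bool ⊕ ℕ) : 0 < A.lo i := by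
  rcases i with b | t
  · exact A.m_pos
  · exact A.ρ0 t

lemma lo_le_D (i : Bool ⊕ ℕ) (x : ℝ) : A.lo i ≤ A.D i x := by
  rcases i with (_ | _) | t
  · exact A.m_le_φ x
  · exact A.m_le_φ _
  · exact le_rfl

lemma D_le_hi (i : Bool ⊕ ℕ) (x : ℝ) : A.D i x ≤ A.hi i := by
  rcases i with (_ | _) | t
  · exact A.φ_le x
  · exact A.φ_le _
  · exact le_rfl

lemma hi_le (i : Bool ⊕ ℕ) : A.hi i ≤ 1 / 100 := by
  rcases i with b | t
  · exact le_rfl
  · exact (A.ρ_le t).trans (by norm_num)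

lemma D_pos (i : Bool ⊕ ℕ) (x : ℝ) : 0 < A.D i x := (A.lo_pos i).trans_le (A.lo_le_D i x)

lemma M_pos (i j : Bool ⊕ ℕ) : 0 < A.M i j := by
  rcases i with b | t
  · rcases j with b' | t'
    · rw [M]
      split_ifs
      · exact A.P0
      · exact A.Q0
    · exact A.W0
  · exact A.ρ0 t

lemma M_le (i j : Bool ⊕ ℕ) : A.M i j ≤ 1 / 100 := by
  rcases i with b | t
  · rcases j with b' | t'
    · rw [M]
      split_ifs
      · exact A.P1
      · exact A.Q1
    · exact A.W1
  · exact (A.ρ_le t).trans (by norm_num)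

/-- On the blocks the derivatives are constant. -/
lemma D_eq (i j : Bool ⊕ ℕ) {x : ℝ} (hx : x ∈ J j) : A.D i x = A.M i j := by
  rcases i with (_ | _) | t
  · rcases j with (_ | _) | t'
    · exact A.φ_left hx
    · exact A.φ_right hx
    · exact A.φ_mid hx.1 hx.2
  · rcases j with (_ | _) | t'
    · have h : x ≤ 1 / 5 := hx
      exact A.φ_right (by linarith)
    · have h : 4 / 5 ≤ x := hx
      exact A.φ_left (by linarith)
    · exact A.φ_mid (by linarith [hx.2]) (by linarith [hx.1])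
  · rfl

lemma convex_J (j : Bool ⊕ ℕ) : Convex ℝ (J j) := by
  rcases j with (_ | _) | t
  · exact convex_Iic _
  · exact convex_Ici _
  · exact convex_Icc _ _

lemma continuous_u (i : Bool ⊕ ℕ) : Continuous (A.u i) := (A.contDiff_u i).continuous

lemma differentiable_u (i : Bool ⊕ ℕ) : Differentiable ℝ (A.u i) :=
  fun x => (A.hasDerivAt_u i x).differentiableAt

lemma le_u_sub (i : Bool ⊕ ℕ) {x y : ℝ} (h : x ≤ y) : A.lo i * (y - x) ≤ A.u i y - A.u i x :=
  convex_univ.mul_sub_le_image_sub_of_le_deriv (A.continuous_u i).continuousOn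
    (A.differentiable_u i).differentiableOn
    (fun x _ => by rw [(A.hasDerivAt_u i x).deriv]; exact A.lo_le_D i x) x trivial y trivial h

lemma u_sub_le (i : Bool ⊕ ℕ) {x y : ℝ} (h : x ≤ y) : A.u i y - A.u i x ≤ A.hi i * (y - x) :=
  convex_univ.image_sub_le_mul_sub_of_deriv_le (A.continuous_u i).continuousOn
    (A.differentiable_u i).differentiableOn
    (fun x _ => by rw [(A.hasDerivAt_u i x).deriv]; exact A.D_le_hi i x) x trivial y trivial h

lemma u_sub_eq (i j : Bool ⊕ ℕ) {x y : ℝ} (hx : x ∈ J j) (hy : y ∈ J j) (h : x ≤ y) :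
    A.u i y - A.u i x = A.M i j * (y - x) := by
  apply le_antisymm
  · exact (convex_J j).image_sub_le_mul_sub_of_deriv_le (A.continuous_u i).continuousOn
      (A.differentiable_u i).differentiableOn
      (fun x hx => by rw [(A.hasDerivAt_u i x).deriv, A.D_eq i j (interior_subset hx)]) x hx y hy h
  · exact (convex_J j).mul_sub_le_image_sub_of_le_deriv (A.continuous_u i).continuousOn
      (A.differentiable_u i).differentiableOn
      (fun x hx => by rw [(A.hasDerivAt_u i x).deriv, A.D_eq i j (interior_subset hx)]) x hx y hy h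

lemma strictMono_u (i : Bool ⊕ ℕ) : StrictMono (A.u i) := by
  intro x y h
  have h1 := A.le_u_sub i h.le
  have h2 := mul_pos (A.lo_pos i) (sub_pos.2 h)
  linarith

lemma dist_u_eq (i j : Bool ⊕ ℕ) {x y : ℝ} (hx : x ∈ J j) (hy : y ∈ J j) :
    dist (A.u i x) (A.u i y) = A.M i j * dist x y := by
  rcases le_total x y with h | h
  · rw [dist_comm, dist_comm x, Real.dist_eq, Real.dist_eq, A.u_sub_eq i j hx hy h, abs_mul,
      abs_of_pos (A.M_pos i j)]
  · rw [Real.dist_eq, Real.dist_eq, A.u_sub_eq i j hy hx h, abs_mul, abs_of_pos (A.M_pos i j)]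

lemma dist_u_le (i : Bool ⊕ ℕ) (x y : ℝ) : dist (A.u i x) (A.u i y) ≤ A.hi i * dist x y := by
  rcases le_total x y with h | h
  · rw [dist_comm, dist_comm x, Real.dist_eq, Real.dist_eq, abs_of_nonneg (sub_nonneg.2 h),
      abs_of_nonneg (sub_nonneg.2 ((A.strictMono_u i).monotone h))]
    exact A.u_sub_le i h
  · rw [Real.dist_eq, Real.dist_eq, abs_of_nonneg (sub_nonneg.2 h),
      abs_of_nonneg (sub_nonneg.2 ((A.strictMono_u i).monotone h))]
    exact A.u_sub_le i h

lemma le_dist_u (i : Bool ⊕ ℕ) (x y : ℝ) : A.lo i * dist x y ≤ dist (A.u i x) (A.u i y) := by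
  rcases le_total x y with h | h
  · rw [dist_comm, dist_comm (A.u i x), Real.dist_eq, Real.dist_eq, abs_of_nonneg (sub_nonneg.2 h),
      abs_of_nonneg (sub_nonneg.2 ((A.strictMono_u i).monotone h))]
    exact A.le_u_sub i h
  · rw [Real.dist_eq, Real.dist_eq, abs_of_nonneg (sub_nonneg.2 h),
      abs_of_nonneg (sub_nonneg.2 ((A.strictMono_u i).monotone h))]
    exact A.le_u_sub i h

lemma v_zero : A.v 0 = 1 / 10 := by simp [v]

/-- The places of the images. -/
def Im : Bool ⊕ ℕ → Set ℝ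
  | .inl false => Ioo 0 (1 / 5)
  | .inl true => Ioo (4 / 5) 1
  | .inr t => Ioo (2 / 5 + (1 / 2) ^ t * (9 / 100)) (2 / 5 + (1 / 2) ^ t * (12 / 100))

lemma v_mem {x : ℝ} (h1 : -1 < x) (h2 : x < 2) : A.v x ∈ Ioo (0 : ℝ) (1 / 5) := by
  have h3 := A.dist_u_le (.inl false) x 0
  have e : A.u (.inl false) = A.v := rfl
  have e2 : A.hi (.inl false) = 1 / 100 := rfl
  rw [e, v_zero, e2, Real.dist_eq, Real.dist_eq, sub_zero] at h3
  have h4 : |x| ≤ 2 := by rw [abs_le]; constructor <;> linarith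
  have h5 := abs_le.1 (h3.trans (mul_le_mul_of_nonneg_left h4 (by norm_num : (0 : ℝ) ≤ 1 / 100)))
  constructor
  · linarith [h5.1]
  · linarith [h5.2]

lemma u_mem_Im (i : Bool ⊕ ℕ) {x : ℝ} (hx : x ∈ Ioo (-1 : ℝ) 2) : A.u i x ∈ Im i := by
  rcases i with (_ | _) | t
  · exact A.v_mem hx.1 hx.2
  · have h := A.v_mem (x := 1 - x) (by linarith [hx.2]) (by linarith [hx.1])
    constructor
    · change 4 / 5 < 1 - A.v (1 - x)
      linarith [h.2]
    · change 1 - A.v (1 - x) < 1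
      linarith [h.1]
  · have h1 := A.ρ0 t
    have h2 := A.ρ1 t
    have h3 : (0 : ℝ) < (1 / 2) ^ t := by positivity
    have h4 := mul_lt_mul_of_pos_left hx.1 h1
    have h5 := mul_lt_mul_of_pos_left hx.2 h1
    constructor
    · change 2 / 5 + (1 / 2) ^ t * (9 / 100) < 2 / 5 + (1 / 2) ^ t / 10 + A.ρ t * x
      linarith
    · change 2 / 5 + (1 / 2) ^ t / 10 + A.ρ t * x < 2 / 5 + (1 / 2) ^ t * (12 / 100)
      linarith

lemma Im_subset_J (i : Bool ⊕ ℕ) : Im i ⊆ J i := by
  rcases i with (_ | _) | t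
  · exact fun x hx => hx.2.le
  · exact fun x hx => hx.1.le
  · intro x hx
    have h3 : (0 : ℝ) < (1 / 2) ^ t := by positivity
    have h4 : (1 / 2 : ℝ) ^ t ≤ 1 := pow_le_one₀ (by norm_num) (by norm_num)
    have h1 := hx.1
    have h2 := hx.2
    exact ⟨by linarith, by linarith⟩

lemma Im_subset (i : Bool ⊕ ℕ) : Im i ⊆ Ioo (0 : ℝ) 1 := by
  rcases i with (_ | _) | t
  · exact fun x hx => ⟨hx.1, by linarith [hx.2]⟩
  · exact fun x hx => ⟨by linarith [hx.1], hx.2⟩
  · intro x hx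
    have h := Im_subset_J (.inr t) hx
    exact ⟨by linarith [h.1], by linarith [h.2]⟩

lemma Im_disj_lt {t t' : ℕ} (h : t < t') : Disjoint (Im (.inr t)) (Im (.inr t')) := by
  rw [Set.disjoint_left]
  intro x hx hx'
  have h1 : (1 / 2 : ℝ) ^ t' ≤ (1 / 2) ^ (t + 1) :=
    pow_le_pow_of_le_one (by norm_num) (by norm_num) h
  have h3 : (0 : ℝ) < (1 / 2) ^ t := by positivity
  rw [pow_succ] at h1
  have h4 := hx.1
  have h5 := hx'.2
  linarith

lemma Im_disj {i j : Bool ⊕ ℕ} (h : i ≠ j) : Disjoint (Im i) (Im j) := by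
  have key1 : ∀ t, Disjoint (Im (.inl false)) (Im (.inr t)) := fun t => by
    rw [Set.disjoint_left]
    intro x hx hx'
    have h1 := hx.2
    have h2 := (Im_subset_J (.inr t) hx').1
    linarith
  have key2 : ∀ t, Disjoint (Im (.inl true)) (Im (.inr t)) := fun t => by
    rw [Set.disjoint_left]
    intro x hx hx'
    have h1 := hx.1
    have h2 := (Im_subset_J (.inr t) hx').2
    linarith
  have key3 : Disjoint (Im (.inl false)) (Im (.inl true)) := by
    rw [Set.disjoint_left]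
    intro x hx hx'
    have h1 := hx.2
    have h2 := hx'.1
    linarith
  rcases i with (_ | _) | t
  · rcases j with (_ | _) | t'
    · exact absurd rfl h
    · exact key3
    · exact key1 t'
  · rcases j with (_ | _) | t'
    · exact key3.symm
    · exact absurd rfl h
    · exact key2 t'
  · rcases j with (_ | _) | t'
    · exact (key1 t).symm
    · exact (key2 t).symm
    · have hne : t ≠ t' := fun e => h (by rw [e])
      rcases lt_or_gt_of_ne hne with hlt | hlt
      · exact Im_disj_lt hlt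
      · exact (Im_disj_lt hlt).symm

lemma mem_V {x : ℝ} (hx : x ∈ Icc (0 : ℝ) 1) : x ∈ Ioo (-1 : ℝ) 2 :=
  ⟨by linarith [hx.1], by linarith [hx.2]⟩

/-- The system is Markov. -/
lemma markov : Markov A.u (Icc 0 1) A.M A.lo A.hi (1 / 100) where
  compact := isCompact_Icc
  nonempty := ⟨0, by simp⟩
  mapsTo i x hx := Ioo_subset_Icc_self (Im_subset i (A.u_mem_Im i (mem_V hx)))
  ratio i j x hx y hy := A.dist_u_eq i j (Im_subset_J j (A.u_mem_Im j (mem_V hx)))
    (Im_subset_J j (A.u_mem_Im j (mem_V hy)))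
  M_pos := A.M_pos
  M_le := A.M_le
  κ_pos := by norm_num
  κ_lt := by norm_num
  dist_le i x _ y _ := A.dist_u_le i x y
  le_dist i x _ y _ := A.le_dist_u i x y
  lo_pos := A.lo_pos
  lo_lt i := ((A.lo_le_D i 0).trans ((A.D_le_hi i 0).trans (A.hi_le i))).trans_lt (by norm_num)
  hi_nonneg i := (A.lo_pos i).le.trans ((A.lo_le_D i 0).trans (A.D_le_hi i 0))
  hi_le := A.hi_le
  disj i j h := by
    refine (Im_disj h).mono ?_ ?_
    · rintro _ ⟨x, hx, rfl⟩; exact A.u_mem_Im i (mem_V hx)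
    · rintro _ ⟨x, hx, rfl⟩; exact A.u_mem_Im j (mem_V hx)

end Par

end Q91.MS
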