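import Mathlib

/-!
# Numbers for the mirror symmetric spectrum
-/

open Set Filter Topology

namespace Q91.MS

/-- Kakeya: for `θ ∈ [1/2, 1)` every number in `[0, c θ / (1 - θ)]` is a subsum of `∑ c θ^(t+1)`. -/
lemma kakeya {c θ x : ℝ} (hc : 0 < c) (hθ : 1 / 2 ≤ θ) (hθ1 : θ < 1) (hx0 : 0 ≤ x)
    (hx : x ≤ c * (θ / (1 - θ))) :
    ∃ B : Set ℕ, HasSum (fun t => B.indicator (fun t => c * θ ^ (t + 1)) t) x := by
  classical
  have hθ0 : 0 < θ := by linarith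
  have h1θ : 0 < 1 - θ := by linarith
  obtain ⟨rem, hrem0, hrems⟩ : ∃ rem : ℕ → ℝ, rem 0 = x ∧ ∀ n, rem (n + 1) =
      if c * θ ^ (n + 1) ≤ rem n then rem n - c * θ ^ (n + 1) else rem n :=
    ⟨fun n => Nat.rec x (fun n y => if c * θ ^ (n + 1) ≤ y then y - c * θ ^ (n + 1) else y) n,
      rfl, fun n => rfl⟩
  have hinv : ∀ n, 0 ≤ rem n ∧ rem n ≤ c * θ ^ (n + 1) / (1 - θ) := by
    intro n
    induction n with
    | zero =>
      rw [hrem0]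
      refine ⟨hx0, hx.trans (le_of_eq ?_)⟩
      rw [zero_add, pow_one]
      ring
    | succ n ih =>
      rw [hrems]
      have ha : 0 < c * θ ^ (n + 1) := by positivity
      split_ifs with h
      · refine ⟨by linarith, ?_⟩
        have : c * θ ^ (n + 1) / (1 - θ) - c * θ ^ (n + 1) = c * θ ^ (n + 1 + 1) / (1 - θ) := by
          field_simp
          ring
        linarith [ih.2]
      · refine ⟨ih.1, ?_⟩
        push Not at h
        refine h.le.trans ?_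
        rw [le_div_iff₀ h1θ, pow_succ θ (n + 1)]
        nlinarith
  have hlim : Tendsto rem atTop (𝓝 0) := by
    have h1 : Tendsto (fun n : ℕ => c * θ ^ (n + 1) / (1 - θ)) atTop (𝓝 0) := by
      have h2 := (((tendsto_pow_atTop_nhds_zero_of_lt_one hθ0.le hθ1).comp
        (tendsto_add_atTop_nat 1)).const_mul c).div_const (1 - θ)
      simpa using h2
    exact squeeze_zero (fun n => (hinv n).1) (fun n => (hinv n).2) h1
  refine ⟨{n | c * θ ^ (n + 1) ≤ rem n}, ?_⟩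
  have hnn : ∀ t, 0 ≤ ({n | c * θ ^ (n + 1) ≤ rem n} : Set ℕ).indicator
      (fun t => c * θ ^ (t + 1)) t := fun t => indicator_nonneg (fun t _ => by positivity) t
  rw [hasSum_iff_tendsto_nat_of_nonneg hnn]
  have hpart : ∀ n, ∑ t ∈ Finset.range n, ({n | c * θ ^ (n + 1) ≤ rem n} : Set ℕ).indicator
      (fun t => c * θ ^ (t + 1)) t = x - rem n := by
    intro n
    induction n with
    | zero => simp [hrem0]
    | succ n ih =>
      rw [Finset.sum_range_succ, ih, hrems]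
      by_cases h : c * θ ^ (n + 1) ≤ rem n
      · rw [if_pos h, indicator_of_mem (show n ∈ {n | c * θ ^ (n + 1) ≤ rem n} from h)]
        ring
      · rw [if_neg h, indicator_of_notMem (show n ∉ {n | c * θ ^ (n + 1) ≤ rem n} from h)]
        ring
  simp only [hpart]
  simpa using hlim.const_sub x

/-- The constants. -/
structure Cst where
  p : ℝ
  q : ℝ
  r : ℝ
  U : ℝ
  θ : ℝ
  p0 : 0 < p
  p1 : p < 1
  q0 : 0 < q
  q1 : q < 1
  r0 : 0 < r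
  r1 : r < 1
  U0 : 0 < U
  U1 : U < 1
  θ0 : 0 < θ
  θ1 : θ < 1
  θ3 : θ ^ 3 = 1 / 2
  pq : p ^ 2 + q ^ 2 = 1
  R1 : r * (θ / (1 - θ)) < 1
  eq1 : (1 - p) * (1 - r * (θ / (1 - θ))) = U * (r * (θ / (1 - θ)))
  eq3 : (1 - p ^ 3 - q ^ 3) * (1 - r ^ 3) = 2 * U ^ 3 * r ^ 3

/-- The constants exist. -/
theorem exists_cst : Nonempty Cst := by
  obtain ⟨θ, hθ⟩ : ∃ θ : ℝ, θ = (1 / 2 : ℝ) ^ (1 / 3 : ℝ) := ⟨_, rfl⟩
  have hθ0 : 0 < θ := by rw [hθ]; positivity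
  have hθ3 : θ ^ 3 = 1 / 2 := by
    rw [hθ, ← Real.rpow_natCast, ← Real.rpow_mul (by norm_num)]
    norm_num
  have hlo : 0.793 < θ := by
    by_contra h
    push Not at h
    have : θ ^ 3 ≤ 0.793 ^ 3 := pow_le_pow_left₀ hθ0.le h 3
    norm_num at this
    linarith
  have hhi : θ < 0.794 := by
    by_contra h
    push Not at h
    have : (0.794 : ℝ) ^ 3 ≤ θ ^ 3 := pow_le_pow_left₀ (by norm_num) h 3
    norm_num at this
    linarith
  have hθ1 : θ < 1 := by linarith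
  obtain ⟨κ, hκ⟩ : ∃ κ : ℝ, κ = (1 - θ) / θ := ⟨_, rfl⟩
  have hκlo : 0.2594 < κ := by
    rw [hκ, lt_div_iff₀ hθ0]
    nlinarith
  have hκhi : κ < 0.2611 := by
    rw [hκ, div_lt_iff₀ hθ0]
    nlinarith
  obtain ⟨f, hf⟩ : ∃ f : ℝ → ℝ, f = fun r => (1 - (100 / 2501 : ℝ) ^ 3 - (2499 / 2501) ^ 3) *
      (1 - r ^ 3) - 2 * (1 - 100 / 2501) ^ 3 * (κ - r) ^ 3 := ⟨_, rfl⟩
  have hfc : Continuous f := by rw [hf]; fun_prop
  have h1 : f 0.14 < 0 := by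
    rw [hf]
    simp only
    have h2 : (0.1194 : ℝ) ^ 3 ≤ (κ - 0.14) ^ 3 := pow_le_pow_left₀ (by norm_num) (by linarith) 3
    nlinarith
  have h2 : 0 < f 0.16 := by
    rw [hf]
    simp only
    have h2 : (κ - 0.16) ^ 3 ≤ (0.1011 : ℝ) ^ 3 := pow_le_pow_left₀ (by linarith) (by linarith) 3
    nlinarith
  obtain ⟨r, hr, hfr⟩ : ∃ r ∈ Icc (0.14 : ℝ) 0.16, f r = 0 :=
    intermediate_value_Icc (by norm_num) hfc.continuousOn ⟨h1.le, h2.le⟩
  have hr0 : 0 < r := by linarith [hr.1]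
  have hκr : θ / (1 - θ) = κ⁻¹ := by rw [hκ, inv_div]
  have hκ0 : 0 < κ := by linarith
  rw [hf] at hfr
  simp only at hfr
  refine ⟨⟨100 / 2501, 2499 / 2501, r, (1 - 100 / 2501) * (κ - r) / r, θ, by norm_num,
    by norm_num, by norm_num, by norm_num, hr0, by linarith [hr.2], ?_, ?_, hθ0, hθ1, hθ3,
    by norm_num, ?_, ?_, ?_⟩⟩
  · exact div_pos (mul_pos (by norm_num) (by linarith [hr.2])) hr0
  · rw [div_lt_one hr0]
    nlinarith [hr.1, hr.2]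
  · rw [hκr, ← div_eq_mul_inv, div_lt_one hκ0]
    linarith [hr.2]
  · rw [hκr]
    field_simp
  · have h3 : (κ - r) ^ 3 * (2 * (1 - 100 / 2501) ^ 3) = (1 - (100 / 2501 : ℝ) ^ 3 -
        (2499 / 2501) ^ 3) * (1 - r ^ 3) := by linarith
    rw [← h3]
    field_simp

namespace Cst

variable (c : Cst)

/-- The total weight of the small letters. -/
noncomputable def S (σ : ℝ) : ℝ := c.r ^ σ * (c.θ ^ σ / (1 - c.θ ^ σ))

lemma θσ0 (σ : ℝ) : 0 < c.θ ^ σ := Real.rpow_pos_of_pos c.θ0 σ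

lemma θσ1 {σ : ℝ} (hσ : 0 < σ) : c.θ ^ σ < 1 := Real.rpow_lt_one c.θ0.le c.θ1 hσ

lemma S_pos {σ : ℝ} (hσ : 0 < σ) : 0 < c.S σ :=
  mul_pos (Real.rpow_pos_of_pos c.r0 σ) (div_pos (c.θσ0 σ) (by linarith [c.θσ1 hσ]))

lemma S_anti {σ τ : ℝ} (hσ : 0 < σ) (h : σ ≤ τ) : c.S τ ≤ c.S σ := by
  have hθ := Real.rpow_le_rpow_of_exponent_ge c.θ0 c.θ1.le h
  have h1 := c.θσ1 hσ
  have h2 := c.θσ1 (hσ.trans_le h)
  unfold S
  refine mul_le_mul (Real.rpow_le_rpow_of_exponent_ge c.r0 c.r1.le h) ?_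
    (div_nonneg (c.θσ0 τ).le (by linarith)) (Real.rpow_nonneg c.r0.le _)
  rw [div_le_div_iff₀ (by linarith) (by linarith)]
  nlinarith

lemma S_one : c.S 1 = c.r * (c.θ / (1 - c.θ)) := by simp [S]

lemma S_three : c.S 3 = c.r ^ 3 := by
  have h1 : c.θ ^ (3 : ℝ) = 1 / 2 := by
    rw [show (3 : ℝ) = ((3 : ℕ) : ℝ) by norm_num, Real.rpow_natCast, c.θ3]
  have h2 : c.r ^ (3 : ℝ) = c.r ^ 3 := by
    rw [show (3 : ℝ) = ((3 : ℕ) : ℝ) by norm_num, Real.rpow_natCast]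
  rw [S, h1, h2]
  norm_num

/-- One big letter: the number `R` with `(1 - p^σ)(1 - R) = U^σ R`. -/
lemma exists_R1 {σ : ℝ} (hσ : 0 < σ) (hσ1 : σ ≤ 1) : ∃ R : ℝ, 0 ≤ R ∧ R < 1 ∧ R ≤ c.S σ ∧
    (1 - c.p ^ σ) * (1 - R) = c.U ^ σ * R := by
  have hp : c.p ^ σ < 1 := Real.rpow_lt_one c.p0.le c.p1 hσ
  have hU : 0 < c.U ^ σ := Real.rpow_pos_of_pos c.U0 σ
  have hd : 0 < 1 - c.p ^ σ + c.U ^ σ := by linarith
  refine ⟨(1 - c.p ^ σ) / (1 - c.p ^ σ + c.U ^ σ), div_nonneg (by linarith) hd.le, ?_, ?_, ?_⟩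
  · rw [div_lt_one hd]; linarith
  · rw [div_le_iff₀ hd]
    have hS := c.S_anti hσ hσ1
    have hp' : c.p ≤ c.p ^ σ := by
      have := Real.rpow_le_rpow_of_exponent_ge c.p0 c.p1.le hσ1
      rwa [Real.rpow_one] at this
    have hU' : c.U ≤ c.U ^ σ := by
      have := Real.rpow_le_rpow_of_exponent_ge c.U0 c.U1.le hσ1
      rwa [Real.rpow_one] at this
    have hS1 : 0 < c.S 1 := c.S_pos one_pos
    have heq := c.eq1
    rw [← S_one] at heq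
    by_cases h1 : 1 ≤ c.S σ
    · nlinarith
    · push Not at h1
      -- (1 - p^σ)(1 - S σ) ≤ (1 - p)(1 - S 1) = U S 1 ≤ U^σ S σ
      have h2 : (1 - c.p ^ σ) * (1 - c.S σ) ≤ (1 - c.p) * (1 - c.S 1) :=
        mul_le_mul (by linarith) (by linarith) (by linarith) (by linarith [c.p1])
      have h3 : c.U * c.S 1 ≤ c.U ^ σ * c.S σ :=
        mul_le_mul hU' hS hS1.le hU.le
      nlinarith
  · field_simp
    ring

/-- Two big letters: the number `R` with `(1 - p^σ - q^σ)(1 - R) = 2 U^σ R`. -/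
lemma exists_R2 {σ : ℝ} (hσ : 2 ≤ σ) (hσ3 : σ ≤ 3) : ∃ R : ℝ, 0 ≤ R ∧ R < 1 ∧ R ≤ c.S σ ∧
    (1 - c.p ^ σ - c.q ^ σ) * (1 - R) = 2 * c.U ^ σ * R := by
  have hσ0 : 0 < σ := by linarith
  have hp : c.p ^ σ ≤ c.p ^ (2 : ℝ) := Real.rpow_le_rpow_of_exponent_ge c.p0 c.p1.le hσ
  have hq : c.q ^ σ ≤ c.q ^ (2 : ℝ) := Real.rpow_le_rpow_of_exponent_ge c.q0 c.q1.le hσ
  have hpq := c.pq
  rw [Real.rpow_two] at hp hq
  have hU : 0 < c.U ^ σ := Real.rpow_pos_of_pos c.U0 σ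
  have hd : 0 < 1 - c.p ^ σ - c.q ^ σ + 2 * c.U ^ σ := by linarith
  refine ⟨(1 - c.p ^ σ - c.q ^ σ) / (1 - c.p ^ σ - c.q ^ σ + 2 * c.U ^ σ),
    div_nonneg (by linarith) hd.le, ?_, ?_, ?_⟩
  · rw [div_lt_one hd]; linarith
  · rw [div_le_iff₀ hd]
    have hS := c.S_anti hσ0 hσ3
    have e3 : (3 : ℝ) = ((3 : ℕ) : ℝ) := by norm_num
    have hp' : c.p ^ 3 ≤ c.p ^ σ := by
      have := Real.rpow_le_rpow_of_exponent_ge c.p0 c.p1.le hσ3
      rwa [e3, Real.rpow_natCast] at this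
    have hq' : c.q ^ 3 ≤ c.q ^ σ := by
      have := Real.rpow_le_rpow_of_exponent_ge c.q0 c.q1.le hσ3
      rwa [e3, Real.rpow_natCast] at this
    have hU' : c.U ^ 3 ≤ c.U ^ σ := by
      have := Real.rpow_le_rpow_of_exponent_ge c.U0 c.U1.le hσ3
      rwa [e3, Real.rpow_natCast] at this
    have hS3 : 0 < c.S 3 := c.S_pos (by norm_num)
    have heq := c.eq3
    rw [← S_three] at heq
    by_cases h1 : 1 ≤ c.S σ
    · nlinarith
    · push Not at h1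
      have h2 : (1 - c.p ^ σ - c.q ^ σ) * (1 - c.S σ) ≤ (1 - c.p ^ 3 - c.q ^ 3) * (1 - c.S 3) :=
        mul_le_mul (by linarith) (by linarith) (by linarith) (by linarith)
      have h3 : c.U ^ 3 * c.S 3 ≤ c.U ^ σ * c.S σ :=
        mul_le_mul hU' hS hS3.le hU.le
      nlinarith
  · field_simp
    ring

end Cst

end Q91.MS
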