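import Mathlib
import Pool.Agent.Q91.MS.Maps
import Pool.Agent.Q91.MS.Num

/-!
# The spectrum of the mirror symmetric system
-/

open Set Filter Topology MeasureTheory
open scoped ENNReal NNReal

namespace Q91.MS

open Q91.ExpSys

lemma pow_rpow {x σ : ℝ} {N : ℕ} (hx : 0 ≤ x) (hN : N ≠ 0) : (x ^ N) ^ (σ / N) = x ^ σ := by
  rw [← Real.rpow_natCast, ← Real.rpow_mul hx, mul_div_cancel₀]
  exact_mod_cast hN

/-- Constants and the power `N`. -/
structure Cfg extends Cst where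
  N : ℕ
  N3 : 3 ≤ N
  pN : p ^ N ≤ 1 / 100
  qN : q ^ N ≤ 1 / 100
  UN : U ^ N ≤ 1 / 100
  rN : r ^ N ≤ 1 / 200

theorem exists_cfg : Nonempty Cfg := by
  obtain ⟨c⟩ := exists_cst
  have h1 := tendsto_pow_atTop_nhds_zero_of_lt_one c.p0.le c.p1
  have h2 := tendsto_pow_atTop_nhds_zero_of_lt_one c.q0.le c.q1
  have h3 := tendsto_pow_atTop_nhds_zero_of_lt_one c.U0.le c.U1
  have h4 := tendsto_pow_atTop_nhds_zero_of_lt_one c.r0.le c.r1
  obtain ⟨N, hN⟩ := ((((h1.eventually (gt_mem_nhds (show (0 : ℝ) < 1 / 100 by norm_num))).and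
    (h2.eventually (gt_mem_nhds (show (0 : ℝ) < 1 / 100 by norm_num)))).and
    ((h3.eventually (gt_mem_nhds (show (0 : ℝ) < 1 / 100 by norm_num))).and
    (h4.eventually (gt_mem_nhds (show (0 : ℝ) < 1 / 200 by norm_num))))).and
    (eventually_ge_atTop 3)).exists
  exact ⟨⟨c, N, hN.2, hN.1.1.1.le, hN.1.1.2.le, hN.1.2.1.le, hN.1.2.2.le⟩⟩

namespace Cfg

variable (c : Cfg)

lemma N_ne : c.N ≠ 0 := by have := c.N3; omega
lemma N_pos : (0 : ℝ) < c.N := by have := c.N3; exact_mod_cast (by omega : 0 < c.N)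

/-- The parameters. -/
noncomputable def par : Par where
  P := c.p ^ c.N
  Q := c.q ^ c.N
  W := c.U ^ c.N
  ρ t := (c.r * c.θ ^ (t + 1)) ^ c.N
  P0 := pow_pos c.p0 _
  P1 := c.pN
  Q0 := pow_pos c.q0 _
  Q1 := c.qN
  W0 := pow_pos c.U0 _
  W1 := c.UN
  ρ0 t := pow_pos (mul_pos c.r0 (pow_pos c.θ0 _)) _
  ρ1 t := by
    rw [mul_pow, ← pow_mul, mul_comm (t + 1), pow_mul]
    have h1 : c.θ ^ c.N ≤ 1 / 2 := by
      rw [← c.θ3]
      exact pow_le_pow_of_le_one c.θ0.le c.θ1.le c.N3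
    have h2 : (c.θ ^ c.N) ^ (t + 1) ≤ (1 / 2) ^ (t + 1) :=
      pow_le_pow_left₀ (pow_nonneg c.θ0.le _) h1 _
    have h3 : (1 / 2 : ℝ) ^ (t + 1) ≤ (1 / 2) ^ t :=
      pow_le_pow_of_le_one (by norm_num) (by norm_num) (Nat.le_succ t)
    have h4 := mul_le_mul c.rN (h2.trans h3) (pow_nonneg (pow_nonneg c.θ0.le _) _)
      (by norm_num : (0 : ℝ) ≤ 1 / 200)
    linarith

/-- The weights of the small letters. -/
noncomputable def w (σ : ℝ) (t : ℕ) : ℝ := c.r ^ σ * (c.θ ^ σ) ^ (t + 1)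

lemma w_pos (σ : ℝ) (t : ℕ) : 0 < c.w σ t :=
  mul_pos (Real.rpow_pos_of_pos c.r0 σ) (pow_pos (Real.rpow_pos_of_pos c.θ0 σ) _)

lemma ρ_rpow (σ : ℝ) (t : ℕ) : c.par.ρ t ^ (σ / c.N) = c.w σ t := by
  change ((c.r * c.θ ^ (t + 1)) ^ c.N) ^ (σ / c.N) = _
  rw [pow_rpow (mul_nonneg c.r0.le (pow_nonneg c.θ0.le _)) c.N_ne,
    Real.mul_rpow c.r0.le (pow_nonneg c.θ0.le _), w, ← Real.rpow_natCast c.θ,
    ← Real.rpow_natCast (c.θ ^ σ), ← Real.rpow_mul c.θ0.le, ← Real.rpow_mul c.θ0.le, mul_comm σ]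

lemma M_same (b : Bool) (σ : ℝ) :
    c.par.M (.inl b) (.inl b) ^ (σ / c.N) = c.p ^ σ := by
  have h : c.par.M (.inl b) (.inl b) = c.p ^ c.N := by simp [Par.M, par]
  rw [h, pow_rpow c.p0.le c.N_ne]

lemma M_diff (b : Bool) (σ : ℝ) :
    c.par.M (.inl b) (.inl !b) ^ (σ / c.N) = c.q ^ σ := by
  have h : c.par.M (.inl b) (.inl !b) = c.q ^ c.N := by simp [Par.M, par]
  rw [h, pow_rpow c.q0.le c.N_ne]

lemma M_small (b : Bool) (t : ℕ) (σ : ℝ) :
    c.par.M (.inl b) (.inr t) ^ (σ / c.N) = c.U ^ σ := by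
  change (c.U ^ c.N) ^ (σ / c.N) = _
  rw [pow_rpow c.U0.le c.N_ne]

lemma M_ρ (t : ℕ) (j : Bool ⊕ ℕ) (σ : ℝ) :
    c.par.M (.inr t) j ^ (σ / c.N) = c.w σ t := c.ρ_rpow σ t

/-- The limit sets. -/
def L (A : Set (Bool ⊕ ℕ)) : Set ℝ := limitSet c.par.u (Icc 0 1) A

/-- The eigenfunction. -/
noncomputable def g (σ : ℝ) (G : Bool → ℝ) : Bool ⊕ ℕ → ℝ
  | .inl b => G b
  | .inr t => c.w σ t

open Classical in
/-- The weight of a big letter if it occurs. -/
noncomputable def G' (A : Set (Bool ⊕ ℕ)) (G : Bool → ℝ) (b : Bool) : ℝ :=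
  if Sum.inl b ∈ A then G b else 0

lemma tsum_sub (A : Set (Bool ⊕ ℕ)) (f : Bool ⊕ ℕ → ℝ≥0∞) (b : Bool) :
    ∑' j : A, f j = A.indicator f (.inl b) + A.indicator f (.inl !b) +
      ∑' t, A.indicator f (.inr t) := by
  rw [tsum_subtype]
  have h1 : HasSum (A.indicator f ∘ Sum.inl) (A.indicator f (.inl b) + A.indicator f (.inl !b)) := by
    have h := hasSum_fintype (A.indicator f ∘ Sum.inl)
    rw [Fintype.sum_bool] at h
    cases b
    · rw [add_comm] at h
      exact h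
    · exact h
  have h2 : HasSum (A.indicator f ∘ Sum.inr) (∑' t, A.indicator f (.inr t)) :=
    ENNReal.summable.hasSum
  exact (h1.sum h2).tsum_eq

lemma indicator_inl (A : Set (Bool ⊕ ℕ)) (G : Bool → ℝ) (W : ℝ≥0∞) (h : Bool ⊕ ℕ → ℝ≥0∞)
    (b : Bool) (hW : h (.inl b) = W) (σ : ℝ) :
    A.indicator (fun j => h j * ENNReal.ofReal (c.g σ G j)) (.inl b) =
      W * ENNReal.ofReal (G' A G b) := by
  classical
  rw [G']
  by_cases hb : Sum.inl b ∈ A
  · rw [indicator_of_mem hb, if_pos hb, hW, g]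
  · rw [indicator_of_notMem hb, if_neg hb, ENNReal.ofReal_zero, mul_zero]

/-- **Upper bound.** -/
theorem upper {A : Set (Bool ⊕ ℕ)} {σ R : ℝ} (hσ : 0 < σ) (G : Bool → ℝ)
    (hG : ∀ b, Sum.inl b ∈ A → 0 < G b)
    (hR : HasSum (fun t => {t | Sum.inr t ∈ A}.indicator (c.w σ) t) R)
    (h1 : ∀ b, Sum.inl b ∈ A → c.p ^ σ * G' A G b + c.q ^ σ * G' A G (!b) + c.U ^ σ * R ≤ G b)
    (h2 : G' A G false + G' A G true + R ≤ 1) :
    dimH (c.L A) ≤ ENNReal.ofReal (σ / c.N) := by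
  classical
  have hs : 0 < σ / c.N := div_pos hσ c.N_pos
  have hG'0 : ∀ b, 0 ≤ G' A G b := fun b => by
    rw [G']; split_ifs with h
    · exact (hG b h).le
    · exact le_rfl
  have hR0 : 0 ≤ R := hR.nonneg fun t => indicator_nonneg (fun t _ => (c.w_pos σ t).le) t
  have htail : ∀ W : ℝ≥0∞, ∑' t, A.indicator (fun j => W * ENNReal.ofReal (c.g σ G j)) (.inr t) =
      W * ENNReal.ofReal R := by
    intro W
    have e : ∀ t, A.indicator (fun j => W * ENNReal.ofReal (c.g σ G j)) (.inr t) =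
        W * ENNReal.ofReal ({t | Sum.inr t ∈ A}.indicator (c.w σ) t) := by
      intro t
      by_cases ht : Sum.inr t ∈ A
      · rw [indicator_of_mem ht, indicator_of_mem (show t ∈ {t | Sum.inr t ∈ A} from ht), g]
      · rw [indicator_of_notMem ht, indicator_of_notMem (show t ∉ {t | Sum.inr t ∈ A} from ht),
          ENNReal.ofReal_zero, mul_zero]
    simp only [e]
    rw [ENNReal.tsum_mul_left, ← ENNReal.ofReal_tsum_of_nonneg
      (fun t => indicator_nonneg (fun t _ => (c.w_pos σ t).le) t) hR.summable, hR.tsum_eq]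
  -- the constant
  obtain ⟨K, hK1, hK⟩ : ∃ K : ℝ, 1 ≤ K ∧ ∀ b, Sum.inl b ∈ A → 1 ≤ K * G b := by
    have h3 : ∀ b, ∃ K : ℝ, 1 ≤ K ∧ (Sum.inl b ∈ A → 1 ≤ K * G b) := by
      intro b
      by_cases hb : Sum.inl b ∈ A
      · have := hG b hb
        refine ⟨max 1 (1 / G b), le_max_left _ _, fun _ => ?_⟩
        calc (1 : ℝ) = 1 / G b * G b := by field_simp
          _ ≤ _ := mul_le_mul_of_nonneg_right (le_max_right _ _) this.le
      · exact ⟨1, le_rfl, fun h => absurd h hb⟩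
    obtain ⟨K1, h4, h5⟩ := h3 false
    obtain ⟨K2, h6, h7⟩ := h3 true
    refine ⟨max K1 K2, h4.trans (le_max_left _ _), fun b hb => ?_⟩
    cases b
    · exact (h5 hb).trans (mul_le_mul_of_nonneg_right (le_max_left _ _) (hG _ hb).le)
    · exact (h7 hb).trans (mul_le_mul_of_nonneg_right (le_max_right _ _) (hG _ hb).le)
  refine dimH_le c.par.markov hs (fun j => ENNReal.ofReal (c.g σ G j)) ?_ ?_
    (C := ENNReal.ofReal K) ENNReal.ofReal_ne_top ?_
  · rintro (b | t) hi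
    · have e : ∀ j : Bool ⊕ ℕ, True := fun _ => trivial
      rw [tsum_sub A (fun j => ENNReal.ofReal (c.par.M (.inl b) j ^ (σ / c.N)) *
        ENNReal.ofReal (c.g σ G j)) b,
        c.indicator_inl A G (ENNReal.ofReal (c.p ^ σ)) _ b (by rw [c.M_same]) σ,
        c.indicator_inl A G (ENNReal.ofReal (c.q ^ σ)) _ (!b) (by rw [c.M_diff]) σ]
      have e2 : ∀ t, A.indicator (fun j => ENNReal.ofReal (c.par.M (.inl b) j ^ (σ / c.N)) *
          ENNReal.ofReal (c.g σ G j)) (.inr t) = A.indicator (fun j => ENNReal.ofReal (c.U ^ σ) *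
          ENNReal.ofReal (c.g σ G j)) (.inr t) := by
        intro t
        by_cases ht : Sum.inr t ∈ A
        · rw [indicator_of_mem ht, indicator_of_mem ht, c.M_small]
        · rw [indicator_of_notMem ht, indicator_of_notMem ht]
      simp only [e2]
      rw [htail, ← ENNReal.ofReal_mul (Real.rpow_nonneg c.p0.le _),
        ← ENNReal.ofReal_mul (Real.rpow_nonneg c.q0.le _),
        ← ENNReal.ofReal_mul (Real.rpow_nonneg c.U0.le _),
        ← ENNReal.ofReal_add (mul_nonneg (Real.rpow_nonneg c.p0.le _) (hG'0 _))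
          (mul_nonneg (Real.rpow_nonneg c.q0.le _) (hG'0 _)),
        ← ENNReal.ofReal_add (add_nonneg (mul_nonneg (Real.rpow_nonneg c.p0.le _) (hG'0 _))
          (mul_nonneg (Real.rpow_nonneg c.q0.le _) (hG'0 _)))
          (mul_nonneg (Real.rpow_nonneg c.U0.le _) hR0)]
      exact ENNReal.ofReal_le_ofReal (h1 b hi)
    · rw [tsum_sub A (fun j => ENNReal.ofReal (c.par.M (.inr t) j ^ (σ / c.N)) *
        ENNReal.ofReal (c.g σ G j)) false,
        c.indicator_inl A G (ENNReal.ofReal (c.w σ t)) _ false (by rw [c.M_ρ]) σ,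
        c.indicator_inl A G (ENNReal.ofReal (c.w σ t)) _ (!false) (by rw [c.M_ρ]) σ]
      have e2 : ∀ t', A.indicator (fun j => ENNReal.ofReal (c.par.M (.inr t) j ^ (σ / c.N)) *
          ENNReal.ofReal (c.g σ G j)) (.inr t') = A.indicator (fun j => ENNReal.ofReal (c.w σ t) *
          ENNReal.ofReal (c.g σ G j)) (.inr t') := by
        intro t'
        by_cases ht : Sum.inr t' ∈ A
        · rw [indicator_of_mem ht, indicator_of_mem ht, c.M_ρ]
        · rw [indicator_of_notMem ht, indicator_of_notMem ht]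
      simp only [e2]
      rw [htail, ← mul_add, ← mul_add, Bool.not_false,
        ← ENNReal.ofReal_add (hG'0 _) (hG'0 _), ← ENNReal.ofReal_add (add_nonneg (hG'0 _) (hG'0 _)) hR0,
        ← ENNReal.ofReal_mul (c.w_pos σ t).le]
      apply ENNReal.ofReal_le_ofReal
      rw [g]
      have := c.w_pos σ t
      nlinarith
  · rw [tsum_sub A (fun j => ENNReal.ofReal (c.g σ G j)) false]
    have h3 := htail 1
    simp only [one_mul] at h3
    rw [h3]
    refine ENNReal.add_ne_top.2 ⟨ENNReal.add_ne_top.2 ⟨?_, ?_⟩, ENNReal.ofReal_ne_top⟩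
    · rw [indicator_apply]; split_ifs
      · exact ENNReal.ofReal_ne_top
      · exact ENNReal.zero_ne_top
    · rw [indicator_apply]; split_ifs
      · exact ENNReal.ofReal_ne_top
      · exact ENNReal.zero_ne_top
  · rintro (b | t) hj
    · rw [← ENNReal.ofReal_mul (by linarith)]
      apply ENNReal.ofReal_le_ofReal
      refine le_trans ?_ (hK b hj)
      change (1 / 100 : ℝ) ^ (σ / c.N) ≤ 1
      exact Real.rpow_le_one (by norm_num) (by norm_num) hs.le
    · rw [← ENNReal.ofReal_mul (by linarith)]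
      apply ENNReal.ofReal_le_ofReal
      change c.par.ρ t ^ (σ / c.N) ≤ K * c.w σ t
      rw [c.ρ_rpow]
      have := c.w_pos σ t
      nlinarith

/-- **Lower bound.** -/
theorem lower {A : Set (Bool ⊕ ℕ)} {σ R : ℝ} (hσ : 0 < σ) (G : Bool → ℝ)
    (hA : ∃ b, Sum.inl b ∈ A)
    (hG : ∀ b, Sum.inl b ∈ A → 0 < G b)
    (hR : HasSum (fun t => {t | Sum.inr t ∈ A}.indicator (c.w σ) t) R)
    (h1 : ∀ b, Sum.inl b ∈ A → G b ≤ c.p ^ σ * G' A G b + c.q ^ σ * G' A G (!b) + c.U ^ σ * R)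
    (h2 : 1 ≤ G' A G false + G' A G true + R) :
    ENNReal.ofReal (σ / c.N) ≤ dimH (c.L A) := by
  classical
  have hs : 0 < σ / c.N := div_pos hσ c.N_pos
  have hG'0 : ∀ b, 0 ≤ G' A G b := fun b => by
    rw [G']; split_ifs with h
    · exact (hG b h).le
    · exact le_rfl
  have hR0 : 0 ≤ R := hR.nonneg fun t => indicator_nonneg (fun t _ => (c.w_pos σ t).le) t
  refine le_dimH c.par.markov hs (g := c.g σ G) ?_ ?_
  · rintro (b | t) hi
    · exact hG b hi
    · exact c.w_pos σ t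
  · intro η hη0 hη1
    obtain ⟨T, hTA, hT⟩ : ∃ T : Finset ℕ, (∀ t ∈ T, Sum.inr t ∈ A) ∧
        η * R ≤ ∑ t ∈ T, c.w σ t := by
      rcases hR0.eq_or_lt with h0 | h0
      · exact ⟨∅, by simp, by simp [← h0]⟩
      · have h3 : ∀ᶠ s : Finset ℕ in atTop, η * R <
            ∑ t ∈ s, {t | Sum.inr t ∈ A}.indicator (c.w σ) t :=
          hR.eventually (lt_mem_nhds (by nlinarith))
        obtain ⟨s, hs⟩ := h3.exists
        refine ⟨s.filter fun t => Sum.inr t ∈ A, by simp, ?_⟩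
        rw [Finset.sum_filter]
        refine hs.le.trans (le_of_eq (Finset.sum_congr rfl fun t _ => ?_))
        rw [indicator_apply]
        rfl
    have hsum : ∀ f : Bool ⊕ ℕ → ℝ, ∑ j ∈ (Finset.univ.filter fun b => Sum.inl b ∈ A).disjSum T,
        f j * c.g σ G j = f (.inl false) * G' A G false + f (.inl true) * G' A G true +
          ∑ t ∈ T, f (.inr t) * c.w σ t := by
      intro f
      rw [Finset.sum_disjSum, Finset.sum_filter, Fintype.sum_bool]
      congr 1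
      rw [add_comm, G', G']
      congr 1
      · split_ifs
        · rfl
        · simp
      · split_ifs
        · rfl
        · simp
    refine ⟨(Finset.univ.filter fun b => Sum.inl b ∈ A).disjSum T, ?_, ?_, ?_⟩
    · obtain ⟨b, hb⟩ := hA
      exact ⟨.inl b, by simp [hb]⟩
    · intro j hj
      rw [Finset.mem_coe, Finset.mem_disjSum] at hj
      rcases hj with ⟨b, hb, rfl⟩ | ⟨t, ht, rfl⟩
      · exact (Finset.mem_filter.1 hb).2
      · exact hTA t ht
    · rintro (b | t) hj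
      · have hb : Sum.inl b ∈ A := by
          rw [Finset.mem_disjSum] at hj
          rcases hj with ⟨b', hb, h⟩ | ⟨t, ht, h⟩
          · rw [← Sum.inl.inj h]
            exact (Finset.mem_filter.1 hb).2
          · exact absurd h (by simp)
        rw [hsum (fun j => c.par.M (.inl b) j ^ (σ / c.N))]
        simp only [c.M_small]
        rw [← Finset.mul_sum]
        have e : c.par.M (.inl b) (.inl false) ^ (σ / c.N) * G' A G false +
            c.par.M (.inl b) (.inl true) ^ (σ / c.N) * G' A G true =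
            c.p ^ σ * G' A G b + c.q ^ σ * G' A G (!b) := by
          cases b
          · rw [c.M_same false]
            have := c.M_diff false σ
            rw [Bool.not_false] at this ⊢
            rw [this]
          · rw [c.M_same true]
            have := c.M_diff true σ
            rw [Bool.not_true] at this ⊢
            rw [this, add_comm]
        rw [e]
        have h3 := h1 b hb
        have h4 : c.U ^ σ * (η * R) ≤ c.U ^ σ * ∑ t ∈ T, c.w σ t :=
          mul_le_mul_of_nonneg_left hT (Real.rpow_nonneg c.U0.le _)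
        have h5 : 0 ≤ c.p ^ σ * G' A G b + c.q ^ σ * G' A G (!b) :=
          add_nonneg (mul_nonneg (Real.rpow_nonneg c.p0.le _) (hG'0 _))
            (mul_nonneg (Real.rpow_nonneg c.q0.le _) (hG'0 _))
        change η * G b ≤ _
        nlinarith
      · rw [hsum (fun j => c.par.M (.inr t) j ^ (σ / c.N))]
        simp only [c.M_ρ]
        rw [← Finset.mul_sum, ← mul_add, ← mul_add]
        change η * c.w σ t ≤ _
        rw [mul_comm η]
        apply mul_le_mul_of_nonneg_left _ (c.w_pos σ t).le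
        nlinarith [hG'0 false, hG'0 true]

lemma hasSum_all {σ : ℝ} (hσ : 0 < σ) : HasSum (c.w σ) (c.S σ) := by
  have h1 := c.θσ1 hσ
  have h2 := c.θσ0 σ
  have h := ((hasSum_geometric_of_lt_one h2.le h1).mul_left (c.θ ^ σ)).mul_left (c.r ^ σ)
  have e : (fun i => c.r ^ σ * (c.θ ^ σ * (c.θ ^ σ) ^ i)) = c.w σ := by
    funext i
    rw [w, pow_succ']
  rw [e] at h
  have e2 : c.r ^ σ * (c.θ ^ σ * (1 - c.θ ^ σ)⁻¹) = c.S σ := by
    rw [Cst.S, div_eq_mul_inv]
  rwa [e2] at h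

lemma exists_B {σ R : ℝ} (hσ : 0 < σ) (hσ3 : σ ≤ 3) (hR0 : 0 ≤ R) (hR : R ≤ c.S σ) :
    ∃ B : Set ℕ, HasSum (fun t => B.indicator (c.w σ) t) R := by
  have h1 : 1 / 2 ≤ c.θ ^ σ := by
    have := Real.rpow_le_rpow_of_exponent_ge c.θ0 c.θ1.le hσ3
    have e3 : (3 : ℝ) = ((3 : ℕ) : ℝ) := by norm_num
    rw [e3, Real.rpow_natCast, c.θ3] at this
    exact this
  exact kakeya (Real.rpow_pos_of_pos c.r0 σ) h1 (c.θσ1 hσ) hR0 hR

lemma dim_le_one {A : Set (Bool ⊕ ℕ)} {b : Bool} (hb : Sum.inl b ∉ A) :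
    dimH (c.L A) ≤ ENNReal.ofReal (1 / c.N) := by
  have hmono : c.L A ⊆ c.L {j | j ≠ Sum.inl b} :=
    limitSet_mono fun j hj => fun h => hb (h ▸ hj)
  refine (dimH_mono hmono).trans ?_
  have hS := c.S_one
  have hS1 := c.R1
  rw [← hS] at hS1
  have heq := c.eq1
  rw [← hS] at heq
  have hS0 := c.S_pos one_pos
  have hG1 : ∀ b', b' ≠ b → G' {j | j ≠ Sum.inl b} (fun _ => 1 - c.S 1) b' = 1 - c.S 1 := by
    intro b' h
    rw [G', if_pos]
    simp [h]
  have hG2 : G' {j | j ≠ Sum.inl b} (fun _ => 1 - c.S 1) b = 0 := by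
    rw [G', if_neg]
    simp
  apply c.upper one_pos (R := c.S 1) (fun _ => 1 - c.S 1)
  · intro _ _; linarith
  · have e : (fun t : ℕ => {t | Sum.inr t ∈ {j : Bool ⊕ ℕ | j ≠ Sum.inl b}}.indicator (c.w 1) t) =
        c.w 1 := by
      funext t
      rw [indicator_of_mem]
      simp
    rw [e]
    exact c.hasSum_all one_pos
  · intro b' hb'
    have h3 : b' ≠ b := fun h => hb' (by rw [h])
    have h4 : (!b') = b := by cases b <;> cases b' <;> simp_all
    rw [hG1 b' h3, h4, hG2]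
    simp only [Real.rpow_one]
    nlinarith
  · cases b
    · rw [hG2, hG1 true (by simp)]; linarith
    · rw [hG2, hG1 false (by simp)]; linarith

lemma dim_le_three (A : Set (Bool ⊕ ℕ)) : dimH (c.L A) ≤ ENNReal.ofReal (3 / c.N) := by
  refine (dimH_mono (limitSet_mono (subset_univ A))).trans ?_
  have hS := c.S_three
  have hS1 : c.S 3 < 1 := by
    rw [hS]
    exact pow_lt_one₀ c.r0.le c.r1 (by norm_num)
  have heq := c.eq3
  rw [← hS] at heq
  have e3 : (3 : ℝ) = ((3 : ℕ) : ℝ) := by norm_num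
  have hG1 : ∀ b', G' univ (fun _ => (1 - c.S 3) / 2) b' = (1 - c.S 3) / 2 := by
    intro b'
    rw [G', if_pos (mem_univ _)]
  apply c.upper (by norm_num) (R := c.S 3) (fun _ => (1 - c.S 3) / 2)
  · intro _ _; linarith
  · have e : (fun t : ℕ => {t | Sum.inr t ∈ (univ : Set (Bool ⊕ ℕ))}.indicator (c.w 3) t) =
        c.w 3 := by
      funext t
      rw [indicator_of_mem]
      simp
    rw [e]
    exact c.hasSum_all (by norm_num)
  · intro b' _
    rw [hG1, hG1]
    have hp : c.p ^ (3 : ℝ) = c.p ^ 3 := by rw [e3, Real.rpow_natCast]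
    have hq : c.q ^ (3 : ℝ) = c.q ^ 3 := by rw [e3, Real.rpow_natCast]
    have hU : c.U ^ (3 : ℝ) = c.U ^ 3 := by rw [e3, Real.rpow_natCast]
    rw [hp, hq, hU]
    nlinarith
  · rw [hG1, hG1]; linarith

lemma two_le_dim {A : Set (Bool ⊕ ℕ)} (h0 : Sum.inl false ∈ A) (h1 : Sum.inl true ∈ A) :
    ENNReal.ofReal (2 / c.N) ≤ dimH (c.L A) := by
  have hmono : c.L (range Sum.inl) ⊆ c.L A := by
    apply limitSet_mono
    rintro _ ⟨b, rfl⟩
    cases b
    · exact h0
    · exact h1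
  refine le_trans ?_ (dimH_mono hmono)
  have hG1 : ∀ b', G' (range Sum.inl) (fun _ => 1 / 2) b' = 1 / 2 := by
    intro b'
    rw [G', if_pos ⟨b', rfl⟩]
  have hA : ∃ b, Sum.inl b ∈ (range Sum.inl : Set (Bool ⊕ ℕ)) := ⟨false, mem_range_self false⟩
  apply c.lower (by norm_num) (R := 0) (fun _ => 1 / 2) hA
  · intro _ _; norm_num
  · have e : (fun t : ℕ => {t | Sum.inr t ∈ (range Sum.inl : Set (Bool ⊕ ℕ))}.indicator (c.w 2) t) =
        fun _ => 0 := by
      funext t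
      rw [indicator_of_notMem]
      rintro ⟨b, hb⟩
      exact absurd hb (by simp)
    rw [e]
    exact hasSum_zero
  · intro b' _
    rw [hG1, hG1, Real.rpow_two, Real.rpow_two]
    have := c.pq
    nlinarith
  · rw [hG1, hG1]; norm_num

lemma exists_low {σ : ℝ} (hσ : 0 < σ) (hσ1 : σ ≤ 1) :
    ∃ A, dimH (c.L A) = ENNReal.ofReal (σ / c.N) := by
  obtain ⟨R, hR0, hR1, hRS, heq⟩ := c.exists_R1 hσ hσ1
  obtain ⟨B, hB⟩ := c.exists_B hσ (by linarith) hR0 hRS
  obtain ⟨A, hA⟩ : ∃ A : Set (Bool ⊕ ℕ), A = {j | j = .inl false ∨ ∃ t ∈ B, j = .inr t} :=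
    ⟨_, rfl⟩
  have hAr : {t | Sum.inr t ∈ A} = B := by
    ext t
    rw [hA]
    simp
  have hf : Sum.inl false ∈ A := by rw [hA]; exact Or.inl rfl
  have ht : Sum.inl true ∉ A := by rw [hA]; simp
  have hG1 : G' A (fun _ => 1 - R) false = 1 - R := by rw [G', if_pos hf]
  have hG2 : G' A (fun _ => 1 - R) true = 0 := by rw [G', if_neg ht]
  have hR' : HasSum (fun t => {t | Sum.inr t ∈ A}.indicator (c.w σ) t) R := by rw [hAr]; exact hB
  have key : ∀ b, Sum.inl b ∈ A → c.p ^ σ * G' A (fun _ => 1 - R) b +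
      c.q ^ σ * G' A (fun _ => 1 - R) (!b) + c.U ^ σ * R = 1 - R := by
    intro b hb
    cases b
    · rw [Bool.not_false, hG1, hG2]; linarith
    · exact absurd hb ht
  refine ⟨A, le_antisymm ?_ ?_⟩
  · exact c.upper hσ (fun _ => 1 - R) (fun _ _ => by linarith) hR' (fun b hb => (key b hb).le)
      (by rw [hG1, hG2]; linarith)
  · exact c.lower hσ (fun _ => 1 - R) ⟨false, hf⟩ (fun _ _ => by linarith) hR'
      (fun b hb => (key b hb).ge) (by rw [hG1, hG2]; linarith)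

lemma exists_high {σ : ℝ} (hσ : 2 ≤ σ) (hσ3 : σ ≤ 3) :
    ∃ A, dimH (c.L A) = ENNReal.ofReal (σ / c.N) := by
  have hσ0 : 0 < σ := by linarith
  obtain ⟨R, hR0, hR1, hRS, heq⟩ := c.exists_R2 hσ hσ3
  obtain ⟨B, hB⟩ := c.exists_B hσ0 hσ3 hR0 hRS
  obtain ⟨A, hA⟩ : ∃ A : Set (Bool ⊕ ℕ), A = {j | (∃ b, j = .inl b) ∨ ∃ t ∈ B, j = .inr t} :=
    ⟨_, rfl⟩
  have hAr : {t | Sum.inr t ∈ A} = B := by
    ext t
    rw [hA]
    simp
  have hb : ∀ b, Sum.inl b ∈ A := fun b => by rw [hA]; exact Or.inl ⟨b, rfl⟩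
  have hG1 : ∀ b, G' A (fun _ => (1 - R) / 2) b = (1 - R) / 2 := fun b => by
    rw [G', if_pos (hb b)]
  have hR' : HasSum (fun t => {t | Sum.inr t ∈ A}.indicator (c.w σ) t) R := by rw [hAr]; exact hB
  have key : ∀ b, Sum.inl b ∈ A → c.p ^ σ * G' A (fun _ => (1 - R) / 2) b +
      c.q ^ σ * G' A (fun _ => (1 - R) / 2) (!b) + c.U ^ σ * R = (1 - R) / 2 := by
    intro b _
    rw [hG1, hG1]
    linarith
  refine ⟨A, le_antisymm ?_ ?_⟩
  · exact c.upper hσ0 (fun _ => (1 - R) / 2) (fun _ _ => by linarith) hR'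
      (fun b hb => (key b hb).le) (by rw [hG1, hG1]; linarith)
  · exact c.lower hσ0 (fun _ => (1 - R) / 2) ⟨false, hb false⟩ (fun _ _ => by linarith) hR'
      (fun b hb => (key b hb).ge) (by rw [hG1, hG1]; linarith)

/-- **The spectrum.** -/
theorem spectrum : {x : ℝ | ∃ A : Set (Bool ⊕ ℕ), x = (dimH (c.L A)).toReal} =
    Icc 0 (1 / c.N : ℝ) ∪ Icc (2 / c.N : ℝ) (1 / c.N + 2 / c.N) := by
  have hN := c.N_pos
  have e3 : (1 / c.N + 2 / c.N : ℝ) = 3 / c.N := by
    rw [← add_div]; norm_num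
  rw [e3]
  ext x
  constructor
  · rintro ⟨A, rfl⟩
    by_cases h : ∀ b, Sum.inl b ∈ A
    · right
      have h1 := c.two_le_dim (h false) (h true)
      have h2 := c.dim_le_three A
      constructor
      · rw [← ENNReal.ofReal_le_iff_le_toReal (ne_top_of_le_ne_top ENNReal.ofReal_ne_top h2)]
        exact h1
      · exact ENNReal.toReal_le_of_le_ofReal (by positivity) h2
    · left
      push Not at h
      obtain ⟨b, hb⟩ := h
      exact ⟨ENNReal.toReal_nonneg, ENNReal.toReal_le_of_le_ofReal (by positivity) (c.dim_le_one hb)⟩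
  · rintro (⟨h0, h1⟩ | ⟨h0, h1⟩)
    · rcases h0.eq_or_lt with rfl | h0
      · refine ⟨∅, ?_⟩
        have : c.L ∅ = ∅ := by
          ext y
          simp only [L, limitSet, mem_ofPred_eq, mem_empty_iff_false, iff_false]
          rintro ⟨ω, h, -⟩
          exact h 0
        rw [this, dimH_empty, ENNReal.toReal_zero]
      · rw [le_div_iff₀ hN] at h1
        obtain ⟨A, hA⟩ := c.exists_low (σ := x * c.N) (mul_pos h0 hN) h1
        refine ⟨A, ?_⟩
        rw [hA, mul_div_cancel_right₀ _ hN.ne', ENNReal.toReal_ofReal h0.le]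
    · rw [le_div_iff₀ hN] at h1
      rw [div_le_iff₀ hN] at h0
      obtain ⟨A, hA⟩ := c.exists_high (σ := x * c.N) h0 h1
      refine ⟨A, ?_⟩
      have hx : 0 ≤ x := by nlinarith
      rw [hA, mul_div_cancel_right₀ _ hN.ne', ENNReal.toReal_ofReal hx]

end Cfg

end Q91.MS
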